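import Pool.Agent.Lib.DT.O.Spec

/-!
# Theorem DT, module L5: torsion prime to `a`
-/

set_option autoImplicit false

open scoped Pointwise nonZeroDivisors

noncomputable section

namespace Pool.Agent.DT

open Pool.Agent.MuZ Pool.Agent.FW NumberField IsDedekindDomain

/-- `1 = v + y` with `v ∈ a`, `y ∈ n`, in the form of a decomposition of complex numbers. -/
private theorem L5_dec {k t : ℕ} [SqT k t] {a n : Ideal (OO k t)} (h : PrI a n) :
    ∃ v ∈ a, ∃ y ∈ n, ∀ z : ℂ, z = toC v * z + toC y * z := by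
  have h1 : (1 : OO k t) ∈ a ⊔ n := by
    rw [show a ⊔ n = ⊤ from h]
    exact Submodule.mem_top
  obtain ⟨v, hv, y, hy, hvy⟩ := Submodule.mem_sup.1 h1
  refine ⟨v, hv, y, hy, fun z => ?_⟩
  rw [← add_mul, ← toC_add, hvy, toC_one, one_mul]

theorem sL5 : S_L5 := by
  intro k t _ a b n _ _ hn
  obtain ⟨v, hv, y, hy, hd⟩ := L5_dec hn
  refine ⟨fun z hz1 hz2 => ?_, fun z hz => ⟨toC v * z, ?_, ?_⟩⟩
  · rw [hd z]
    exact lam_add (lam_prod.1 hz2 v hv) (lam_prod.1 hz1 y hy)
  · refine lam_prod.2 fun u hu => ?_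
    rw [mul_left_comm]
    exact lam_prod.1 (lam_prod.1 hz u hu) v hv
  · have h1 : z - toC v * z = toC y * z := by
      nth_rewrite 1 [hd z]
      ring
    rw [h1]
    exact lam_prod.1 hz y hy

end Pool.Agent.DT
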