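import Pool.Agent.Lib.DT.O.Spec

/-!
# Theorem DT, module L6: the points `T`, `S`, `t` on different curves, the point `S₀`
-/

set_option autoImplicit false

open scoped Pointwise nonZeroDivisors

noncomputable section

namespace Pool.Agent.DT

open Pool.Agent.MuZ Pool.Agent.FW NumberField IsDedekindDomain
open Pool.Agent.DI (io ofC io_inj exists_io io_ofC ofC_io VP MP UP TP ex)

variable {k t : ℕ}

private theorem L6_w (k t : ℕ) : wI k t ∈ pp k t := Ideal.subset_span (by simp)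

private theorem L6_w' (k t : ℕ) : 1 - wI k t ∈ ppb k t := Ideal.subset_span (by simp)

/-- `Lam (pp b)` and `Lam (ppb b)` meet in `Lam b`. -/
private theorem L6_inter [SqT k t] {b : Ideal (OO k t)} {z : ℂ} (h : z ∈ Lam (pp k t * b))
    (h' : z ∈ Lam (ppb k t * b)) : z ∈ Lam b := by
  have e : z = toC (wI k t) * z + toC (1 - wI k t) * z := by
    rw [toC_sub, toC_one]
    ring
  rw [e]
  exact lam_add (lam_prod.1 h _ (L6_w k t)) (lam_prod.1 h' _ (L6_w' k t))

private theorem L6_flip {b : Ideal (OO k t)} {z z' : ℂ} (h : z - z' ∈ Lam b) : z' - z ∈ Lam b := by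
  rw [← neg_sub]
  exact lam_neg h

private theorem L6_int [SqT k t] {b : Ideal (OO k t)} {z : ℂ} (j : ℤ) (h : z ∈ Lam b) :
    (j : ℂ) * z ∈ Lam b := by
  rw [← toC_int (k := k) (t := t)]
  exact lam_mul _ h

/-- The point of order `pp`. -/
private theorem L6_T [SqT k t] (l6 : S_L6a) {b : Ideal (OO k t)} (hb : b ≠ ⊥) {z : ℂ}
    (h : z ∈ Lam (pp k t * b)) (h2 : z ∉ Lam b) : ptT b - z ∈ Lam b ∨ ptT b + z ∈ Lam b := by
  rcases ((l6 k t b hb).1.2.2.2.2 z h).resolve_left h2 with h3 | h3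
  · exact Or.inl (L6_flip h3)
  · exact Or.inr (by rw [add_comm]; exact h3)

/-- The point of order `ppb`. -/
private theorem L6_S [SqT k t] (l6 : S_L6a) {b : Ideal (OO k t)} (hb : b ≠ ⊥) {z : ℂ}
    (h : z ∈ Lam (ppb k t * b)) (h2 : z ∉ Lam b) : ptS b - z ∈ Lam b ∨ ptS b + z ∈ Lam b := by
  rcases ((l6 k t b hb).2.1.2.2.2.2 z h).resolve_left h2 with h3 | h3
  · exact Or.inl (L6_flip h3)
  · exact Or.inr (by rw [add_comm]; exact h3)

/-- The points of order `ppb ^ 2`. -/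
private theorem L6_t0 [SqT k t] (l6 : S_L6a) {b : Ideal (OO k t)} (hb : b ≠ ⊥) {z : ℂ}
    (h : z ∈ Lam (ppb k t ^ 2 * b)) (h2 : z ∉ Lam (ppb k t * b)) :
    ∃ i : ℤ, ¬ (3 : ℤ) ∣ i ∧ z - i * ptt b ∈ Lam b := by
  obtain ⟨_, hS, _, _, _, _, _, _, hj, _⟩ := l6 k t b hb
  obtain ⟨i, hi⟩ := hj z h
  refine ⟨i, ?_, hi⟩
  rintro ⟨i', rfl⟩
  apply h2
  have e : z = (z - ((3 * i' : ℤ) : ℂ) * ptt b) + (i' : ℂ) * ptS b := by
    unfold ptS
    push_cast
    ring
  rw [e]
  exact lam_add (lam_mono hi) (L6_int i' hS.1)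

private theorem L6_t [SqT k t] (l6 : S_L6a) {b : Ideal (OO k t)} (hb : b ≠ ⊥) {z : ℂ}
    (h : z ∈ Lam (ppb k t ^ 2 * b)) (h2 : z ∉ Lam (ppb k t * b)) :
    ∃ j : ℤ, ¬ (3 : ℤ) ∣ j ∧ ptt b - j * z ∈ Lam b := by
  obtain ⟨i, hi, hz⟩ := L6_t0 l6 hb h h2
  obtain ⟨_, _, _, _, _, h9, _⟩ := l6 k t b hb
  have hc : IsCoprime i 3 := ((Int.prime_iff_natAbs_prime.2 (by norm_num)).coprime_iff_not_dvd.2 hi).symm
  have hc9 : IsCoprime i (3 * 3) := hc.mul_right hc
  obtain ⟨j, m, hjm⟩ := hc9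
  refine ⟨j, ?_, ?_⟩
  · rintro ⟨j', rfl⟩
    have h1 : (3 : ℤ) ∣ 1 := ⟨j' * i + m * 3, by rw [← hjm]; ring⟩
    exact absurd h1 (by norm_num)
  · have e : ptt b - j * z = ((9 * m : ℤ) : ℂ) * ptt b - (j : ℂ) * (z - i * ptt b) := by
      have h3 : ((j : ℂ) * i + m * (3 * 3)) = 1 := by exact_mod_cast hjm
      have h4 : ptt b = ((j : ℂ) * i + m * (3 * 3)) * ptt b := by rw [h3, one_mul]
      push_cast
      linear_combination h4
    rw [e]
    exact lam_sub ((h9 _).2 (Dvd.intro _ rfl)) (L6_int j hz)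

private theorem L6_lamC [SqT k t] (b : Ideal (OO k t)) (u : OO k t) : toC u ∈ Lam b :=
  fun v _ => ⟨v * u, (toC_mul v u).symm⟩

/-- The multiples of `S₀` by elements of `ppb`. -/
private theorem L6_S0 [SqT k t] (h4 : S_O4) {v : OO k t} (hv : v ∈ ppb k t) :
    ∃ u : OO k t, toC v * S0 k t = toC u := by
  obtain ⟨h, _⟩ := h4 k t
  have h1 : wI k t * v ∈ sN k t 3 := by
    rw [← h]
    exact Ideal.mul_mem_mul (L6_w k t) hv
  obtain ⟨u, hu⟩ := Ideal.mem_span_singleton'.1 h1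
  refine ⟨u, ?_⟩
  have h2 := congrArg toC hu
  rw [toC_mul, toC_mul, toC_nat, toC_wI] at h2
  unfold S0
  have h3 : toC v * (wC k t / 3) = (wC k t * toC v) / 3 := by ring
  rw [h3, ← h2]
  push_cast
  ring

/-- Module L6. -/
theorem sL6 (h3 : S_O3) (h4 : S_O4) (h6 : S_O6) (l2 : S_L2) (l5 : S_L5) (l6a : S_L6a) : S_L6 := by
  intro k t _ b hb
  obtain ⟨h12, hpc, hpc', _, _, _, _, _, hp0, hp0', _, _⟩ := h4 k t
  obtain ⟨_, c2, _, _, _, _, c7, _⟩ := h3 k t
  obtain ⟨A, B, C, D⟩ := l6a k t b hb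
  have hpb : pp k t * b ≠ ⊥ := mul_ne_zero hp0 hb
  have hpb' : ppb k t * b ≠ ⊥ := mul_ne_zero hp0' hb
  have hcb : cjI b ≠ ⊥ := c7 b hb
  have htt : ptt b ∈ Lam (ppb k t * (ppb k t * b)) := by
    have h := D.1
    rw [sq, mul_assoc] at h
    exact h
  have htn : ptt b ∉ Lam (ppb k t * (pp k t * b)) := by
    intro h
    rw [mul_left_comm] at h
    exact D.2.1 (L6_inter h htt)
  refine ⟨⟨?_, ?_⟩, ⟨?_, htn, ?_⟩, ?_, ?_, ?_, ?_, ?_⟩
  · apply L6_T l6a hpb' _ C.1
    rw [mul_left_comm]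
    exact lam_mono A.1
  · exact L6_S l6a hpb' htt D.2.1
  · apply L6_S l6a hpb _ C.2.1
    rw [mul_left_comm]
    exact lam_mono B.1
  · apply L6_t l6a hpb _ htn
    rw [mul_left_comm]
    exact lam_mono D.1
  · intro a ha ha3
    have hab : a * b ≠ ⊥ := mul_ne_zero ha hb
    rw [← h12] at ha3
    obtain ⟨hap, hap'⟩ := ((h6 k t).2.1 a (pp k t) (ppb k t)).1 ha3
    refine ⟨?_, ?_, ?_⟩
    · apply L6_T l6a hab _ fun h => A.2.1 ((l5 k t a b (pp k t) ha hb hap).1 _ A.1 h)
      rw [mul_left_comm]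
      exact lam_mono A.1
    · apply L6_S l6a hab _ fun h => B.2.1 ((l5 k t a b (ppb k t) ha hb hap').1 _ B.1 h)
      rw [mul_left_comm]
      exact lam_mono B.1
    · apply L6_t l6a hab
      · rw [mul_left_comm]
        exact lam_mono D.1
      · intro h
        rw [mul_left_comm] at h
        exact D.2.1 ((l5 k t a (ppb k t * b) (ppb k t) ha hpb' hap').1 _ htt h)
  · intro α hα
    have hsp : sp α ≠ ⊥ := fun h => hα (Ideal.span_singleton_eq_bot.1 h)
    have hab : sp α * b ≠ ⊥ := mul_ne_zero hsp hb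
    obtain ⟨A', B', _, D'⟩ := l6a k t (sp α * b) hab
    refine ⟨?_, ?_, ?_⟩
    · have e1 : toC α * ptT (sp α * b) ∈ Lam (pp k t * b) := by
        rw [← lam_sp, mul_left_comm]
        exact A'.1
      have e2 : toC α * ptT (sp α * b) ∉ Lam b := by
        rw [← lam_sp]
        exact A'.2.1
      rcases L6_T l6a hb e1 e2 with h | h
      · exact Or.inl (L6_flip h)
      · exact Or.inr (by rw [add_comm]; exact h)
    · have e1 : toC α * ptS (sp α * b) ∈ Lam (ppb k t * b) := by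
        rw [← lam_sp, mul_left_comm]
        exact B'.1
      have e2 : toC α * ptS (sp α * b) ∉ Lam b := by
        rw [← lam_sp]
        exact B'.2.1
      rcases L6_S l6a hb e1 e2 with h | h
      · exact Or.inl (L6_flip h)
      · exact Or.inr (by rw [add_comm]; exact h)
    · apply L6_t0 l6a hb
      · rw [← lam_sp, mul_left_comm]
        exact D'.1
      · rw [← lam_sp, mul_left_comm]
        exact D'.2.1
  · have hl := (l2 k t).2.2.2.2.2.2.2.1
    have e1 : (starRingEnd ℂ) (ptT b) ∈ Lam (ppb k t * cjI b) := by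
      rw [← hpc, ← c2, hl, Complex.conj_conj]
      exact A.1
    have e2 : (starRingEnd ℂ) (ptT b) ∉ Lam (cjI b) := by
      rw [hl, Complex.conj_conj]
      exact A.2.1
    rcases L6_S l6a hcb e1 e2 with h | h
    · exact Or.inl (L6_flip h)
    · exact Or.inr (by rw [add_comm]; exact h)
  · have hl := (l2 k t).2.2.2.2.2.2.2.1
    have e1 : (starRingEnd ℂ) (ptS b) ∈ Lam (pp k t * cjI b) := by
      rw [← hpc', ← c2, hl, Complex.conj_conj]
      exact B.1
    have e2 : (starRingEnd ℂ) (ptS b) ∉ Lam (cjI b) := by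
      rw [hl, Complex.conj_conj]
      exact B.2.1
    rcases L6_T l6a hcb e1 e2 with h | h
    · exact Or.inl (L6_flip h)
    · exact Or.inr (by rw [add_comm]; exact h)
  · have hS1 : S0 k t ∈ Lam (ppb k t * b) := by
      rw [lam_prod]
      intro v hv
      obtain ⟨u, hu⟩ := L6_S0 h4 hv
      rw [hu]
      exact L6_lamC b u
    refine ⟨hS1, ?_, ?_, ?_⟩
    · intro α hα
      obtain ⟨u, hu⟩ := L6_S0 h4 hα
      have e : toC α * S0 k t - S0 k t = toC (α - 1) * S0 k t := by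
        rw [toC_sub, toC_one]
        ring
      rw [e, hu]
      exact L6_lamC b u
    · intro α hα
      obtain ⟨u, hu⟩ := L6_S0 h4 hα
      have e : toC α * S0 k t + S0 k t = toC (α + 1) * S0 k t := by
        rw [toC_add, toC_one]
        ring
      rw [e, hu]
      exact L6_lamC b u
    · intro hbp
      have hS2 : S0 k t ∉ Lam b := by
        intro h
        have h1 : (1 : OO k t) ∈ b ⊔ ppb k t := by
          rw [show b ⊔ ppb k t = ⊤ from hbp]
          trivial
        obtain ⟨v, hv, y, hy, hvy⟩ := Submodule.mem_sup.1 h1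
        obtain ⟨u1, hu1⟩ := h v hv
        obtain ⟨u2, hu2⟩ := L6_S0 h4 hy
        have e : S0 k t = toC (u1 + u2) := by
          rw [toC_add, ← hu1, ← hu2, ← add_mul, ← toC_add, hvy, toC_one, one_mul]
        have e2 : toC (wI k t) = toC ((3 : OO k t) * (u1 + u2)) := by
          rw [toC_mul, ← e, toC_three, toC_wI]
          unfold S0
          ring
        have e3 := congrArg QuadraticAlgebra.im (toC_inj e2)
        have e4 : (wI k t).im = 1 := rfl
        have e5 : ((3 : OO k t) * (u1 + u2)).im = 3 * (u1 + u2).im := by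
          have : (3 : OO k t) = ((3 : ℕ) : OO k t) := by norm_num
          rw [this, im_mul, re_nat, im_nat]
          push_cast
          ring
        rw [e4, e5] at e3
        omega
      exact ⟨hS2, L6_S l6a hb hS1 hS2⟩

end Pool.Agent.DT
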