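import Pool.Agent.Lib.DT.O.Spec

/-!
# Theorem DT, module `L6a`: the points `T`, `S`, `t` on one curve
-/

set_option autoImplicit false

open scoped Pointwise nonZeroDivisors

noncomputable section

namespace Pool.Agent.DT

open Pool.Agent.MuZ Pool.Agent.FW NumberField IsDedekindDomain

private theorem L6a_gen (h3 : S_L3) {k t : ℕ} [SqT k t] {m b : Ideal (OO k t)} (hm : m ≠ ⊥)
    (hb : b ≠ ⊥) : gen m b ∈ Lam (m * b) ∧ ∀ m' : Ideal (OO k t), m < m' → gen m b ∉ Lam (m' * b) := by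
  have h := (h3 k t m b hm hb).1
  unfold gen
  rw [dif_pos h]
  exact h.choose_spec

/-- The integral multiples of the generator. -/
private theorem L6a_int (h3 : S_L3) {k t : ℕ} [SqT k t] {m b : Ideal (OO k t)} (hm : m ≠ ⊥)
    (hb : b ≠ ⊥) (n : ℤ) (hn : ∀ j : ℤ, (j : OO k t) ∈ m ↔ n ∣ j)
    (hv : ∀ v : OO k t, ∃ j : ℤ, v - (j : OO k t) ∈ m) :
    (∀ j : ℤ, (j : ℂ) * gen m b ∈ Lam b ↔ n ∣ j) ∧
      ∀ z ∈ Lam (m * b), ∃ j : ℤ, z - j * gen m b ∈ Lam b := by
  have hg := L6a_gen h3 hm hb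
  obtain ⟨hA, hB⟩ := (h3 k t m b hm hb).2.1 (gen m b) hg.1 hg.2
  constructor
  · intro j
    rw [← hn, ← hA, toC_int]
  · intro z hz
    obtain ⟨v, h1⟩ := hB z hz
    obtain ⟨j, hj⟩ := hv v
    refine ⟨j, ?_⟩
    have h2 := (hA _).2 hj
    rw [toC_sub, toC_int] at h2
    have e : z - j * gen m b = (z - toC v * gen m b) + (toC v - j) * gen m b := by ring
    rw [e]
    exact lam_add h1 h2

/-- A point of order three. -/
private theorem L6a_three {k t : ℕ} {b : Ideal (OO k t)} {g : ℂ}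
    (hg : ∀ j : ℤ, (j : ℂ) * g ∈ Lam b ↔ (3 : ℤ) ∣ j) {z : ℂ} (hz : ∃ j : ℤ, z - j * g ∈ Lam b) :
    z ∈ Lam b ∨ z - g ∈ Lam b ∨ z + g ∈ Lam b := by
  obtain ⟨j, hj⟩ := hz
  have h : (3 : ℤ) ∣ j ∨ (3 : ℤ) ∣ j - 1 ∨ (3 : ℤ) ∣ j + 1 := by omega
  rcases h with h | h | h
  · left
    have e : z = (z - j * g) + j * g := by ring
    rw [e]
    exact lam_add hj ((hg _).2 h)
  · right; left
    have e : z - g = (z - j * g) + ((j - 1 : ℤ) : ℂ) * g := by
      push_cast
      ring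
    rw [e]
    exact lam_add hj ((hg _).2 h)
  · right; right
    have e : z + g = (z - j * g) + ((j + 1 : ℤ) : ℂ) * g := by
      push_cast
      ring
    rw [e]
    exact lam_add hj ((hg _).2 h)

private theorem L6a_w (k t : ℕ) : wI k t ∈ pp k t := Ideal.subset_span (by simp)

private theorem L6a_w' (k t : ℕ) : 1 - wI k t ∈ ppb k t := Ideal.subset_span (by simp)

private theorem L6a_3p (k t : ℕ) : (3 : OO k t) ∈ pp k t := Ideal.subset_span (by simp)

private theorem L6a_3p' (k t : ℕ) : (3 : OO k t) ∈ ppb k t := Ideal.subset_span (by simp)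

private theorem L6a_split {k t : ℕ} (z : ℂ) : z = toC (wI k t) * z + toC (1 - wI k t) * z := by
  rw [toC_sub, toC_one]
  ring

private theorem L6a_inter {k t : ℕ} [SqT k t] {b : Ideal (OO k t)} {z : ℂ}
    (h : z ∈ Lam (pp k t * b)) (h' : z ∈ Lam (ppb k t * b)) : z ∈ Lam b := by
  rw [L6a_split (k := k) (t := t) z]
  exact lam_add (lam_prod.1 h _ (L6a_w k t)) (lam_prod.1 h' _ (L6a_w' k t))

private theorem L6a_tri {k t : ℕ} [SqT k t] {m b : Ideal (OO k t)} (h2 : (3 : OO k t) ∈ m) {z : ℂ}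
    (h : z ∈ Lam (m * b)) : 3 * z ∈ Lam b := by
  have h' := lam_prod.1 h 3 h2
  rwa [toC_three] at h'

theorem sL6a (h4 : S_O4) (h3 : S_L3) : S_L6a := by
  intro k t _ b hb
  obtain ⟨hpp, -, -, hP, hP', -, -, hsup, hne, hne', hmem, hmem'⟩ := h4 k t
  -- the point `T`
  obtain ⟨hTj, hTz⟩ := L6a_int h3 hne hb 3 (fun j => by rw [hmem, re_int]) (fun v => ⟨v.re, by
    rw [hmem, QuadraticAlgebra.re_sub, re_int, sub_self]
    exact dvd_zero 3⟩)
  have hTm : ptT b ∈ Lam (pp k t * b) := (L6a_gen h3 hne hb).1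
  have hT3 : ∀ z ∈ Lam (pp k t * b), z ∈ Lam b ∨ z - ptT b ∈ Lam b ∨ z + ptT b ∈ Lam b :=
    fun z hz => L6a_three hTj (hTz z hz)
  have hTn : ptT b ∉ Lam b := by
    intro h
    have h1 := (hTj 1).1 (by
      rw [Int.cast_one, one_mul]
      exact h)
    norm_num at h1
  have hTT : ptT b + ptT b ∉ Lam b := by
    intro h
    have h1 := (hTj 2).1 (by
      have e : ((2 : ℤ) : ℂ) * gen (pp k t) b = ptT b + ptT b := by
        push_cast
        unfold ptT
        ring
      rw [e]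
      exact h)
    norm_num at h1
  -- `3` is not in `ppb ^ 2`
  have h33 : (3 : OO k t) ∉ ppb k t ^ 2 := by
    intro h
    have h1 : sN k t 3 ≤ ppb k t ^ 2 := (Ideal.span_singleton_le_iff_mem _).2 (by
      exact_mod_cast h)
    rw [← hpp, sq] at h1
    have h5 : ppb k t * ppb k t ∣ pp k t * ppb k t := Ideal.dvd_iff_le.2 h1
    have h6 : ppb k t ∣ pp k t := (mul_dvd_mul_iff_right (a := ppb k t) hne').1 h5
    have h7 : pp k t ≤ ppb k t := Ideal.le_of_dvd h6
    apply hP'.ne_top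
    rw [← hsup]
    exact (sup_eq_right.2 h7).symm
  have hq0 : ppb k t ^ 2 ≠ ⊥ := pow_ne_zero 2 hne'
  have h3x : ∀ x ∈ ppb k t, (3 : OO k t) * x ∈ ppb k t ^ 2 := by
    intro x hx
    rw [sq]
    exact Ideal.mul_mem_mul (L6a_3p' k t) hx
  have hqj : ∀ j : ℤ, (j : OO k t) ∈ ppb k t ^ 2 ↔ (9 : ℤ) ∣ j := by
    intro j
    constructor
    · intro h
      have h1 : (j : OO k t) ∈ ppb k t := Ideal.pow_le_self two_ne_zero h
      rw [hmem', re_int, im_int, add_zero] at h1
      obtain ⟨i, rfl⟩ := h1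
      by_contra h2
      apply h33
      have h5 : (3 : ℤ) ∣ i - 1 ∨ (3 : ℤ) ∣ i + 1 := by omega
      obtain ⟨s, hs⟩ : ∃ s : ℤ, i * i = 1 + 3 * s := by
        rcases h5 with ⟨r, hr⟩ | ⟨r, hr⟩
        · refine ⟨3 * r ^ 2 + 2 * r, ?_⟩
          have : i = 3 * r + 1 := by omega
          rw [this]
          ring
        · refine ⟨3 * r ^ 2 - 2 * r, ?_⟩
          have : i = 3 * r - 1 := by omega
          rw [this]
          ring
      have h6 : (3 : OO k t) = ((3 * i : ℤ) : OO k t) * (i : OO k t) - 3 * (3 * (s : OO k t)) := by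
        have h7 := congrArg (fun x : ℤ => (x : OO k t)) hs
        simp only [Int.cast_mul, Int.cast_add, Int.cast_one, Int.cast_ofNat] at h7
        push_cast
        linear_combination -3 * h7
      rw [h6]
      exact (ppb k t ^ 2).sub_mem (Ideal.mul_mem_right _ _ h)
        (h3x _ (Ideal.mul_mem_right _ _ (L6a_3p' k t)))
    · rintro ⟨i, rfl⟩
      have h1 : ((9 * i : ℤ) : OO k t) = 3 * (3 * (i : OO k t)) := by
        push_cast
        ring
      rw [h1]
      exact h3x _ (Ideal.mul_mem_right _ _ (L6a_3p' k t))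
  have hqv : ∀ v : OO k t, ∃ j : ℤ, v - (j : OO k t) ∈ ppb k t ^ 2 := by
    have hA : ∀ v : OO k t, v - ((v.re + v.im : ℤ) : OO k t) ∈ ppb k t := by
      intro v
      rw [hmem', QuadraticAlgebra.re_sub, QuadraticAlgebra.im_sub, re_int, im_int]
      exact ⟨0, by ring⟩
    have hB : ppb k t ≤ sN k t 3 ⊔ ppb k t ^ 2 := by
      have h1 : ppb k t * (pp k t ⊔ ppb k t) = sN k t 3 ⊔ ppb k t ^ 2 := by
        rw [Ideal.mul_sup, mul_comm (ppb k t) (pp k t), hpp, sq]
      rw [← h1, hsup, Ideal.mul_top]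
    intro v
    obtain ⟨y, hy, x', hx', hyx⟩ := Submodule.mem_sup.1 (hB (hA v))
    obtain ⟨u, rfl⟩ := Ideal.mem_span_singleton'.1 hy
    refine ⟨v.re + v.im + 3 * (u.re + u.im), ?_⟩
    have h5 : v - ((v.re + v.im + 3 * (u.re + u.im) : ℤ) : OO k t) =
        x' + 3 * (u - ((u.re + u.im : ℤ) : OO k t)) := by
      push_cast at hyx ⊢
      linear_combination -hyx
    rw [h5]
    exact (ppb k t ^ 2).add_mem hx' (h3x _ (hA u))
  obtain ⟨htj, htz⟩ := L6a_int h3 hq0 hb 9 hqj hqv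
  have hqlt : ppb k t ^ 2 < ppb k t := by
    refine lt_of_le_of_ne (Ideal.pow_le_self two_ne_zero) fun h => h33 ?_
    rw [h]
    exact L6a_3p' k t
  have ht := L6a_gen h3 hq0 hb
  have htm : ptt b ∈ Lam (ppb k t ^ 2 * b) := ht.1
  have htn : ptt b ∉ Lam (ppb k t * b) := ht.2 _ hqlt
  have htj' : ∀ j : ℤ, (j : ℂ) * ptt b ∈ Lam b ↔ (9 : ℤ) ∣ j := htj
  have htz' : ∀ z ∈ Lam (ppb k t ^ 2 * b), ∃ j : ℤ, z - j * ptt b ∈ Lam b := htz
  -- the point `S`
  have hSt : ptS b = 3 * ptt b := rfl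
  have hSm : ptS b ∈ Lam (ppb k t * b) := by
    rw [lam_prod]
    intro v hv
    have h7 := lam_prod.1 htm _ (h3x v hv)
    rw [toC_mul, toC_three] at h7
    have e : toC v * ptS b = 3 * toC v * ptt b := by
      rw [hSt]
      ring
    rwa [e]
  have hSj : ∀ j : ℤ, (j : ℂ) * ptS b ∈ Lam b ↔ (3 : ℤ) ∣ j := by
    intro j
    have e : (j : ℂ) * ptS b = ((3 * j : ℤ) : ℂ) * ptt b := by
      rw [hSt]
      push_cast
      ring
    rw [e, htj']
    omega
  have hSz : ∀ z ∈ Lam (ppb k t * b), ∃ j : ℤ, z - j * ptS b ∈ Lam b := by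
    intro z hz
    have h1 : z ∈ Lam (ppb k t ^ 2 * b) := by
      rw [sq, mul_assoc]
      exact lam_mono hz
    obtain ⟨j, hj⟩ := htz' z h1
    have h2 : 3 * z ∈ Lam b := L6a_tri (L6a_3p' k t) hz
    have h5 : ((3 * j : ℤ) : ℂ) * ptt b ∈ Lam b := by
      have e : ((3 * j : ℤ) : ℂ) * ptt b = 3 * z - ((3 : ℕ) : ℂ) * (z - j * ptt b) := by
        push_cast
        ring
      rw [e]
      exact lam_sub h2 (lam_nat 3 hj)
    obtain ⟨i, hi⟩ : (3 : ℤ) ∣ j := by
      have h6 := (htj' _).1 h5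
      omega
    refine ⟨i, ?_⟩
    have e : z - i * ptS b = z - j * ptt b := by
      rw [hSt, hi]
      push_cast
      ring
    rw [e]
    exact hj
  have hS3 : ∀ z ∈ Lam (ppb k t * b), z ∈ Lam b ∨ z - ptS b ∈ Lam b ∨ z + ptS b ∈ Lam b :=
    fun z hz => L6a_three hSj (hSz z hz)
  have hSn : ptS b ∉ Lam b := by
    intro h
    have h1 := (hSj 1).1 (by
      rw [Int.cast_one, one_mul]
      exact h)
    norm_num at h1
  have hSS : ptS b + ptS b ∉ Lam b := by
    intro h
    have h1 := (hSj 2).1 (by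
      have e : ((2 : ℤ) : ℂ) * ptS b = ptS b + ptS b := by
        push_cast
        ring
      rw [e]
      exact h)
    norm_num at h1
  have hTq : ptT b ∉ Lam (ppb k t * b) := fun h => hTn (L6a_inter hTm h)
  have hSp : ptS b ∉ Lam (pp k t * b) := fun h => hSn (L6a_inter h hSm)
  refine ⟨⟨hTm, hTn, L6a_tri (L6a_3p k t) hTm, hTT, hT3⟩,
    ⟨hSm, hSn, L6a_tri (L6a_3p' k t) hSm, hSS, hS3⟩, ⟨hTq, hSp, ?_, ?_, ?_⟩,
    ⟨htm, htn, htj', ?_, ?_, htz', ?_⟩⟩
  · intro h
    apply hSp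
    have e : ptS b = (ptS b + ptT b) - ptT b := by ring
    rw [e]
    exact lam_sub (lam_mono h) hTm
  · intro h
    apply hSp
    have e : ptS b = (ptS b - ptT b) + ptT b := by ring
    rw [e]
    exact lam_add (lam_mono h) hTm
  · intro z hz
    have h5 : z ∈ Lam (sN k t 3 * b) := by
      rw [lam_sp, toC_nat]
      push_cast
      exact hz
    have h6 : z ∈ Lam (pp k t * (ppb k t * b)) := by
      rwa [← hpp, mul_assoc] at h5
    have h7 : z ∈ Lam (ppb k t * (pp k t * b)) := by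
      rwa [← hpp, mul_comm (pp k t) (ppb k t), mul_assoc] at h5
    obtain ⟨i, hi⟩ := hSz _ (lam_prod.1 h6 _ (L6a_w k t))
    obtain ⟨j, hj⟩ := hTz _ (lam_prod.1 h7 _ (L6a_w' k t))
    refine ⟨i, j, ?_⟩
    have e1 : z - (i * ptS b + j * ptT b) = (toC (wI k t) * z - i * ptS b) +
        (toC (1 - wI k t) * z - j * gen (pp k t) b) := by
      have e := L6a_split (k := k) (t := t) z
      unfold ptT
      linear_combination e
    rw [e1]
    exact lam_add hi hj
  · intro h
    apply htn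
    have e : ptt b = (ptt b + ptS b) - ptS b := by ring
    rw [e]
    exact lam_sub h hSm
  · intro h
    apply htn
    have e : ptt b = (ptt b - ptS b) + ptS b := by ring
    rw [e]
    exact lam_add h hSm
  · intro z hz hzn
    obtain ⟨j, hj⟩ := htz' z hz
    have h3j : ¬ (3 : ℤ) ∣ j := by
      rintro ⟨i, rfl⟩
      apply hzn
      have e : z = (z - ((3 * i : ℤ) : ℂ) * ptt b) + toC ((i : ℤ) : OO k t) * ptS b := by
        rw [toC_int, hSt]
        push_cast
        ring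
      rw [e]
      exact lam_add (lam_mono hj) (lam_mul _ hSm)
    have key : ∀ c : ℤ, (9 : ℤ) ∣ j - c → z - c * ptt b ∈ Lam b := by
      intro c hc
      have e : z - c * ptt b = (z - j * ptt b) + ((j - c : ℤ) : ℂ) * ptt b := by
        push_cast
        ring
      rw [e]
      exact lam_add hj ((htj' _).2 hc)
    have h9 : (9 : ℤ) ∣ j - 1 ∨ (9 : ℤ) ∣ j - 4 ∨ (9 : ℤ) ∣ j - (-2) ∨ (9 : ℤ) ∣ j - (-1) ∨
        (9 : ℤ) ∣ j - (-4) ∨ (9 : ℤ) ∣ j - 2 := by omega
    rcases h9 with h | h | h | h | h | h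
    · left; left
      have h1 := key _ h
      have e : z - ptt b = z - ((1 : ℤ) : ℂ) * ptt b := by
        push_cast
        ring
      rwa [e]
    · left; right; left
      have h1 := key _ h
      have e : z - (ptt b + ptS b) = z - ((4 : ℤ) : ℂ) * ptt b := by
        rw [hSt]
        push_cast
        ring
      rwa [e]
    · left; right; right
      have h1 := key _ h
      have e : z - (ptt b - ptS b) = z - ((-2 : ℤ) : ℂ) * ptt b := by
        rw [hSt]
        push_cast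
        ring
      rwa [e]
    · right; left
      have h1 := key _ h
      have e : z + ptt b = z - ((-1 : ℤ) : ℂ) * ptt b := by
        push_cast
        ring
      rwa [e]
    · right; right; left
      have h1 := key _ h
      have e : z + (ptt b + ptS b) = z - ((-4 : ℤ) : ℂ) * ptt b := by
        rw [hSt]
        push_cast
        ring
      rwa [e]
    · right; right; right
      have h1 := key _ h
      have e : z + (ptt b - ptS b) = z - ((2 : ℤ) : ℂ) * ptt b := by
        rw [hSt]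
        push_cast
        ring
      rwa [e]

end Pool.Agent.DT
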