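import Pool.Agent.Lib.DT.O.Spec

/-!
# Theorem DT, part 0, module O3: conjugate ideals
-/

set_option autoImplicit false

noncomputable section

namespace Pool.Agent.DT

variable {k t : ℕ}

private theorem O3_mem (a : Ideal (OO k t)) (v : OO k t) : v ∈ cjI a ↔ cjO v ∈ a := by
  constructor
  · intro h
    refine Submodule.span_induction ?_ ?_ ?_ ?_ h
    · rintro x ⟨y, hy, rfl⟩
      rw [cjO_cjO]
      exact hy
    · rw [cjO_zero]
      exact a.zero_mem
    · intro x y _ _ hx hy
      rw [cjO_add]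
      exact a.add_mem hx hy
    · intro r x _ hx
      rw [smul_eq_mul, cjO_mul]
      exact a.mul_mem_left _ hx
  · intro h
    exact Ideal.subset_span ⟨cjO v, h, cjO_cjO v⟩

private theorem O3_map (a : Ideal (OO k t)) : cjI a = Ideal.map (cjE k t) a := rfl

private theorem O3_mul (a b : Ideal (OO k t)) : cjI (a * b) = cjI a * cjI b := by
  rw [O3_map, O3_map, O3_map, Ideal.map_mul]

private theorem O3_invol (a : Ideal (OO k t)) : cjI (cjI a) = a := by
  ext v
  rw [O3_mem, O3_mem, cjO_cjO]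

private theorem O3_NI (a : Ideal (OO k t)) : NI (cjI a) = NI a :=
  (Nat.card_congr (Ideal.quotientEquiv a (cjI a) (cjE k t) (O3_map a)).toEquiv).symm

private theorem O3_sp (v : OO k t) : cjI (Ideal.span {v}) = Ideal.span {cjO v} := by
  rw [O3_map, Ideal.map_span, Set.image_singleton]
  rfl

private theorem O3_pri (a n : Ideal (OO k t)) (h : PrI a n) : PrI (cjI a) (cjI n) := by
  unfold PrI at *
  have h1 := congrArg (Ideal.map (cjE k t)) h
  rw [Ideal.map_sup, Ideal.map_top, ← O3_map, ← O3_map] at h1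
  exact h1

/-- The product `α cjO β` is divisible by `n`. -/
private theorem O3_dvd [SqT k t] (α β : OO k t) (n : ℕ) (hn : 0 < n) (h1 : (n : ℤ) ∣ Nm α)
    (h2 : (n : ℤ) ∣ Nm β) (h3 : (n : ℤ) ∣ 2 * (α * cjO β).re + t * (α * cjO β).im) :
    ∃ u : OO k t, α * cjO β = n * u := by
  set c : OO k t := α * cjO β with hc
  have hN : Nm c = Nm α * Nm β := by rw [hc, Nm_mul, Nm_cjO]
  obtain ⟨x, hx⟩ := h1
  obtain ⟨y, hy⟩ := h2
  obtain ⟨s, hs⟩ := h3
  refine mem_O c n hn ⟨Polynomial.X ^ 2 - Polynomial.C s * Polynomial.X + Polynomial.C (x * y), ?_, ?_⟩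
  · monicity!
  · have hn' : (n : ℂ) ≠ 0 := by exact_mod_cast hn.ne'
    have e1 : toC c + toC (cjO c) = n * s := by
      rw [← toC_add]
      have : c + cjO c = ((n * s : ℤ) : OO k t) := by
        rw [← hs]
        apply ext'
        · rw [QuadraticAlgebra.re_add, re_int]
          simp only [cjO]
          ring
        · rw [QuadraticAlgebra.im_add, im_int]
          simp only [cjO]
          ring
      rw [this, toC_int]
      push_cast
      ring
    have e2 : toC c * toC (cjO c) = n ^ 2 * (x * y) := by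
      rw [← toC_Nm, hN, hx, hy]
      push_cast
      ring
    simp only [Polynomial.eval₂_add, Polynomial.eval₂_sub, Polynomial.eval₂_pow, Polynomial.eval₂_X,
      Polynomial.eval₂_mul, Polynomial.eval₂_C]
    have e3 : toC (cjO c) = n * s - toC c := by linear_combination e1
    rw [e3] at e2
    have e4 : (n : ℂ) ^ 2 * ((toC c / n) ^ 2 - (algebraMap ℤ ℂ) s * (toC c / n) +
        (algebraMap ℤ ℂ) (x * y)) = 0 := by
      have e5 : (n : ℂ) ^ 2 * ((toC c / n) ^ 2 - (algebraMap ℤ ℂ) s * (toC c / n) +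
        (algebraMap ℤ ℂ) (x * y)) = toC c ^ 2 - n * s * toC c + n ^ 2 * (x * y) := by
        simp only [algebraMap_int_eq, eq_intCast]
        push_cast
        field_simp
      rw [e5]
      linear_combination -e2
    rcases mul_eq_zero.1 e4 with h | h
    · exact absurd h (pow_ne_zero 2 hn')
    · exact h

private theorem O3_id (h2 : S_O2) [SqT k t] (a : Ideal (OO k t)) :
    a * cjI a = Ideal.span {(NI a : OO k t)} := by
  obtain ⟨-, -, -, hsp, hNI, hNI0, -, -⟩ := h2 k t
  by_cases ha : a = ⊥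
  · have h0 : NI a = 0 := (hNI0 a).2 ha
    rw [h0, ha, Ideal.bot_mul, Nat.cast_zero, Ideal.span_singleton_eq_bot.2 rfl]
  -- the integers in `a * cjI a`
  obtain ⟨g, hg⟩ := (IsPrincipalIdealRing.principal
    (Ideal.comap (Int.castRingHom (OO k t)) (a * cjI a))).principal
  have hmem : ∀ m : ℤ, ((m : ℤ) : OO k t) ∈ a * cjI a ↔ g ∣ m := by
    intro m
    have h1 : m ∈ Ideal.comap (Int.castRingHom (OO k t)) (a * cjI a) ↔ g ∣ m := by
      rw [hg]
      exact Ideal.mem_span_singleton
    exact h1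
  have hNm : ∀ α ∈ a, g ∣ Nm α := by
    intro α hα
    rw [← hmem, ← mul_cjO]
    exact Ideal.mul_mem_mul hα ((O3_mem a _).2 (by rwa [cjO_cjO]))
  have hg0 : g ≠ 0 := by
    obtain ⟨v, hv, hv0⟩ := Submodule.exists_mem_ne_zero_of_ne_bot ha
    intro h0
    have h1 := hNm v hv
    rw [h0, zero_dvd_iff] at h1
    exact hv0 (Nm_eq_zero h1)
  set n : ℕ := g.natAbs with hn
  have hn0 : 0 < n := Int.natAbs_pos.2 hg0
  have hdv : ∀ m : ℤ, g ∣ m → (n : ℤ) ∣ m := fun m hm => Int.natAbs_dvd.2 hm
  have hJ : a * cjI a = Ideal.span {(n : OO k t)} := by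
    apply le_antisymm
    · rw [Ideal.mul_le]
      intro α hα s hs
      have hβ : cjO s ∈ a := (O3_mem a s).1 hs
      have h3 : g ∣ 2 * (α * cjO (cjO s)).re + t * (α * cjO (cjO s)).im := by
        rw [← hmem]
        have e : ((2 * (α * cjO (cjO s)).re + t * (α * cjO (cjO s)).im : ℤ) : OO k t) =
            α * s + cjO s * cjO α := by
          rw [cjO_cjO, mul_comm (cjO s), ← cjO_mul]
          apply ext'
          · rw [QuadraticAlgebra.re_add, re_int]
            simp only [cjO]
            ring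
          · rw [QuadraticAlgebra.im_add, im_int]
            simp only [cjO]
            ring
        rw [e]
        exact (a * cjI a).add_mem (Ideal.mul_mem_mul hα hs)
          (Ideal.mul_mem_mul hβ ((O3_mem a _).2 (by rwa [cjO_cjO])))
      obtain ⟨u, hu⟩ := O3_dvd α (cjO s) n hn0 (hdv _ (hNm α hα)) (hdv _ (hNm _ hβ)) (hdv _ h3)
      rw [cjO_cjO] at hu
      rw [Ideal.mem_span_singleton]
      exact ⟨u, hu⟩
    · rw [Ideal.span_singleton_le_iff_mem]
      have h1 : (((n : ℕ) : ℤ) : OO k t) ∈ a * cjI a := (hmem _).2 (Int.dvd_natAbs.2 dvd_rfl)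
      rwa [Int.cast_natCast] at h1
  have hnorm : NI a * NI a = n * n := by
    have h1 := congrArg NI hJ
    rw [hNI, O3_NI] at h1
    have h3 := hsp (n : OO k t)
    have h4 : ((NI a * NI a : ℕ) : ℤ) = n * n := by
      rw [h1]
      change ((NI (sp (n : OO k t)) : ℕ) : ℤ) = n * n
      rw [h3, Nm_nat]
      ring
    exact_mod_cast h4
  have h5 : NI a = n := Nat.mul_self_inj.1 hnorm
  rw [h5]
  exact hJ

theorem sO3 (h2 : S_O2) : S_O3 := by
  intro k t _
  refine ⟨O3_mem, O3_mul, fun a => ⟨O3_invol a, O3_NI a, O3_id h2 a⟩, O3_sp, fun N => ?_,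
    fun a n => ⟨fun h => ?_, O3_pri a n⟩, fun a ha h => ha ?_, ?_⟩
  · have h1 := O3_sp (k := k) (t := t) (N : OO k t)
    rw [cjO_nat] at h1
    exact h1
  · have h1 := O3_pri _ _ h
    rwa [O3_invol, O3_invol] at h1
  · rw [← O3_invol a, h, O3_map, Ideal.map_bot]
  · rintro n a a' ⟨α, α', h0, h0', hc, hc', hd, he⟩
    have key : ∀ β : OO k t, PrI (sp β) n → PrI (sp (cjO β)) (cjI n) := by
      intro β hβ
      have h1 := O3_pri _ _ hβ
      have h2 : cjI (sp β) = sp (cjO β) := O3_sp β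
      rwa [h2] at h1
    refine ⟨cjO α, cjO α', ?_, ?_, key α hc, key α' hc', ?_, ?_⟩
    · intro h
      apply h0
      rw [← cjO_cjO α, h, cjO_zero]
    · intro h
      apply h0'
      rw [← cjO_cjO α', h, cjO_zero]
    · rw [← cjO_sub, O3_mem, cjO_cjO]
      exact hd
    · have h1 := congrArg cjI he
      have h2 : ∀ β : OO k t, cjI (sp β) = sp (cjO β) := O3_sp
      rwa [O3_mul, O3_mul, h2, h2] at h1

end Pool.Agent.DT
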