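import Pool.Agent.Lib.DT.O.Spec

/-!
# Theorem DT, module O4: the primes above `3`
-/

set_option autoImplicit false

open scoped Pointwise nonZeroDivisors

noncomputable section

namespace Pool.Agent.DT

open Pool.Agent.MuZ Pool.Agent.FW NumberField IsDedekindDomain
open Pool.Agent.DI (io ofC io_inj exists_io io_ofC ofC_io VP MP UP TP ex)

variable {k t : ℕ}

private lemma O4_re_three : (3 : OO k t).re = 3 := by
  have h := re_nat (k := k) (t := t) 3
  exact_mod_cast h

private lemma O4_im_three : (3 : OO k t).im = 0 := by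
  have h := im_nat (k := k) (t := t) 3
  exact_mod_cast h

private lemma O4_t (k t : ℕ) [h : SqT k t] : ∃ e : ℤ, (t : ℤ) = 1 + 3 * e := by
  rcases h.out with ⟨ht, -⟩ | ⟨ht, -⟩
  · exact ⟨0, by rw [ht]; norm_num⟩
  · exact ⟨1, by rw [ht]; norm_num⟩

private lemma O4_tz (k t : ℕ) [SqT k t] : (t : ZMod 3) = 1 := by
  obtain ⟨e, he⟩ := O4_t k t
  have h : ((t : ℤ) : ZMod 3) = ((1 + 3 * e : ℤ) : ZMod 3) := by rw [he]
  have h3 : (3 : ZMod 3) = 0 := by decide
  push_cast at h
  rw [h, h3, zero_mul, add_zero]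

private lemma O4_sub_w : (1 - wI k t : OO k t) = ⟨1, -1⟩ := by
  apply ext'
  · rw [QuadraticAlgebra.re_sub, re_one]
    simp [wI]
  · rw [QuadraticAlgebra.im_sub, im_one]
    simp [wI]

/-- Membership in `𝔭`. -/
lemma O4_mem_pp (v : OO k t) : v ∈ pp k t ↔ (3 : ℤ) ∣ v.re := by
  unfold pp
  rw [Ideal.mem_span_pair]
  constructor
  · rintro ⟨c, d, rfl⟩
    rw [QuadraticAlgebra.re_add, re_mul, re_mul, O4_re_three, O4_im_three]
    simp only [wI]
    exact ⟨c.re - k * d.im, by ring⟩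
  · rintro ⟨x, hx⟩
    refine ⟨⟨x, 0⟩, ⟨v.im, 0⟩, ext' ?_ ?_⟩
    · rw [QuadraticAlgebra.re_add, re_mul, re_mul, O4_re_three, O4_im_three, hx]
      simp only [wI]
      ring
    · rw [QuadraticAlgebra.im_add, im_mul, im_mul, O4_re_three, O4_im_three]
      simp only [wI]
      ring

/-- Membership in `𝔭̄`. -/
lemma O4_mem_ppb [SqT k t] (v : OO k t) : v ∈ ppb k t ↔ (3 : ℤ) ∣ v.re + v.im := by
  obtain ⟨e, he⟩ := O4_t k t
  unfold ppb
  rw [Ideal.mem_span_pair, O4_sub_w]
  constructor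
  · rintro ⟨c, d, rfl⟩
    rw [QuadraticAlgebra.re_add, QuadraticAlgebra.im_add, re_mul, re_mul, im_mul, im_mul,
      O4_re_three, O4_im_three]
    exact ⟨c.re + c.im + k * d.im - e * d.im, by linear_combination (-d.im) * he⟩
  · rintro ⟨x, hx⟩
    refine ⟨⟨x, 0⟩, ⟨-v.im, 0⟩, ext' ?_ ?_⟩
    · rw [QuadraticAlgebra.re_add, re_mul, re_mul, O4_re_three, O4_im_three]
      linear_combination -hx
    · rw [QuadraticAlgebra.im_add, im_mul, im_mul, O4_re_three, O4_im_three]
      ring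

private lemma O4_zm (m : ℤ) : ((m : ℤ) : ZMod 3) = 0 ↔ (3 : ℤ) ∣ m :=
  ZMod.intCast_zmod_eq_zero_iff_dvd m 3

private lemma O4_three_mul (x : ZMod 3) : 3 * x = 0 := by
  have h : (3 : ZMod 3) = 0 := by decide
  rw [h, zero_mul]

/-- `v ↦ v.re` modulo `3`. -/
private def O4_f0 (k t : ℕ) : OO k t →+* ZMod 3 :=
  evO (0 : ZMod 3) (by rw [O4_three_mul]; simp)

/-- `v ↦ v.re + v.im` modulo `3`. -/
private def O4_f1 (k t : ℕ) [SqT k t] : OO k t →+* ZMod 3 :=
  evO (1 : ZMod 3) (by rw [O4_three_mul, O4_tz k t]; decide)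

private lemma O4_ker0 : RingHom.ker (O4_f0 k t) = pp k t := by
  ext v
  rw [RingHom.mem_ker, O4_mem_pp, ← O4_zm]
  change ((v.re : ZMod 3) + (v.im : ZMod 3) * 0 = 0) ↔ _
  rw [mul_zero, add_zero]

private lemma O4_ker1 [SqT k t] : RingHom.ker (O4_f1 k t) = ppb k t := by
  ext v
  rw [RingHom.mem_ker, O4_mem_ppb, ← O4_zm]
  change ((v.re : ZMod 3) + (v.im : ZMod 3) * 1 = 0) ↔ _
  rw [mul_one]
  push_cast
  rfl

private lemma O4_sur (f : OO k t →+* ZMod 3) : Function.Surjective f := by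
  intro x
  refine ⟨((x.val : ℕ) : OO k t), ?_⟩
  rw [map_natCast]
  exact ZMod.natCast_zmod_val x

private lemma O4_card (f : OO k t →+* ZMod 3) : NI (RingHom.ker f) = 3 := by
  unfold NI
  rw [Nat.card_congr (RingHom.quotientKerEquivOfSurjective (O4_sur f)).toEquiv, Nat.card_eq_fintype_card,
    ZMod.card]

private lemma O4_sN : sN k t 3 = Ideal.span {(3 : OO k t)} := by
  change Ideal.span {((3 : ℕ) : OO k t)} = _
  rw [Nat.cast_ofNat]

set_option linter.unusedVariables false in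
/-- **Module O4.** -/
theorem sO4 (h2 : S_O2) : S_O4 := by
  intro k t _
  obtain ⟨e, he⟩ := O4_t k t
  have m3 : (3 : OO k t) ∈ pp k t := by rw [O4_mem_pp, O4_re_three]
  have m3' : (3 : OO k t) ∈ ppb k t := by rw [O4_mem_ppb, O4_re_three, O4_im_three, add_zero]
  have mw : wI k t ∈ pp k t := by rw [O4_mem_pp]; exact dvd_zero _
  have mw' : 1 - wI k t ∈ ppb k t := by rw [O4_mem_ppb, O4_sub_w]; exact ⟨0, by norm_num⟩
  have h30 : (3 : OO k t) ≠ 0 := by
    intro h
    have h1 := congrArg QuadraticAlgebra.re h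
    rw [O4_re_three, QuadraticAlgebra.re_zero] at h1
    exact absurd h1 (by norm_num)
  have cA : ∀ v : OO k t, v ∈ pp k t → cjO v ∈ ppb k t := by
    intro v hv
    rw [O4_mem_pp] at hv
    rw [O4_mem_ppb]
    obtain ⟨x, hx⟩ := hv
    refine ⟨x + e * v.im, ?_⟩
    simp only [cjO]
    linear_combination hx + v.im * he
  have cB : ∀ v : OO k t, v ∈ ppb k t → cjO v ∈ pp k t := by
    intro v hv
    rw [O4_mem_ppb] at hv
    rw [O4_mem_pp]
    obtain ⟨x, hx⟩ := hv
    refine ⟨x + e * v.im, ?_⟩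
    simp only [cjO]
    linear_combination hx + v.im * he
  refine ⟨?_, ?_, ?_, ?_, ?_, ?_, ?_, ?_, ?_, ?_, O4_mem_pp, O4_mem_ppb⟩
  · rw [O4_sN]
    apply le_antisymm
    · unfold pp ppb
      rw [Ideal.span_pair_mul_span_pair, Ideal.span_le]
      have hw : wI k t * (1 - wI k t) = 3 * (⟨k, -e⟩ : OO k t) := by
        rw [O4_sub_w]
        apply ext'
        · rw [re_mul, re_mul, O4_re_three, O4_im_three]
          simp only [wI]
          ring
        · rw [im_mul, im_mul, O4_re_three, O4_im_three]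
          simp only [wI]
          linear_combination -he
      rintro x (rfl | rfl | rfl | rfl)
      · exact Ideal.mem_span_singleton.2 (dvd_mul_right _ _)
      · exact Ideal.mem_span_singleton.2 (dvd_mul_right _ _)
      · exact Ideal.mem_span_singleton.2 (dvd_mul_left _ _)
      · rw [hw]
        exact Ideal.mem_span_singleton.2 (dvd_mul_right _ _)
    · rw [Ideal.span_singleton_le_iff_mem]
      have e1 : (3 : OO k t) = wI k t * 3 + 3 * (1 - wI k t) := by ring
      rw [e1]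
      exact Ideal.add_mem _ (Ideal.mul_mem_mul mw m3') (Ideal.mul_mem_mul m3 mw')
  · unfold cjI
    apply le_antisymm
    · rw [Ideal.span_le]
      rintro _ ⟨v, hv, rfl⟩
      exact cA v hv
    · intro v hv
      exact Ideal.subset_span ⟨cjO v, cB v hv, cjO_cjO v⟩
  · unfold cjI
    apply le_antisymm
    · rw [Ideal.span_le]
      rintro _ ⟨v, hv, rfl⟩
      exact cB v hv
    · intro v hv
      exact Ideal.subset_span ⟨cjO v, cA v hv, cjO_cjO v⟩
  · rw [← O4_ker0]
    exact RingHom.ker_isPrime _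
  · rw [← O4_ker1]
    exact RingHom.ker_isPrime _
  · rw [← O4_ker0]
    exact O4_card _
  · rw [← O4_ker1]
    exact O4_card _
  · rw [Ideal.eq_top_iff_one]
    have e1 : (1 : OO k t) = wI k t + (1 - wI k t) := by ring
    rw [e1]
    exact Submodule.add_mem_sup mw mw'
  · intro h
    rw [h] at m3
    exact h30 ((Submodule.mem_bot _).1 m3)
  · intro h
    rw [h] at m3'
    exact h30 ((Submodule.mem_bot _).1 m3')

end Pool.Agent.DT
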