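import Pool.Agent.Lib.DT.O.Spec

/-!
# Theorem DT, module O5: a power of every ideal of `O` is principal
-/

set_option autoImplicit false

open scoped Pointwise nonZeroDivisors

noncomputable section

namespace Pool.Agent.DT

open Pool.Agent.MuZ Pool.Agent.FW NumberField IsDedekindDomain
open Pool.Agent.DI (io ofC io_inj exists_io io_ofC ofC_io VP MP UP TP ex)

/-- The class group of `O` is finite. -/
theorem O5_finite (k t : ℕ) [SqT k t] : Finite (ClassGroup (OO k t)) := by
  classical
  have hi : Algebra.IsAlgebraic ℤ (OO k t) := by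
    have : Algebra.IsIntegral ℤ (OO k t) := inferInstance
    infer_instance
  exact @Finite.of_fintype _ (ClassGroup.fintypeOfAdmissibleOfAlgebraic
    (QuadraticAlgebra.basis (-(3 * (k : ℤ))) (t : ℤ)) AbsoluteValue.absIsAdmissible)

/-- Module O5: a power of every ideal is principal. -/
theorem sO5 : S_O5 := by
  intro k t _ a ha
  have hfin := O5_finite k t
  have ha' : a ∈ (Ideal (OO k t))⁰ := mem_nonZeroDivisors_of_ne_zero ha
  refine ⟨Nat.card (ClassGroup (OO k t)), ?_⟩
  have h0 : 0 < Nat.card (ClassGroup (OO k t)) := Nat.card_pos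
  have h1 : (ClassGroup.mk0 ⟨a, ha'⟩) ^ Nat.card (ClassGroup (OO k t)) = 1 := pow_card_eq_one'
  rw [← map_pow, ClassGroup.mk0_eq_one_iff] at h1
  obtain ⟨α, hα⟩ := h1.principal
  have h2 : a ^ Nat.card (ClassGroup (OO k t)) = sp α := hα
  refine ⟨α, h0, ?_, h2⟩
  rintro rfl
  have h3 : a ^ Nat.card (ClassGroup (OO k t)) = ⊥ := by
    rw [h2]
    exact Ideal.span_singleton_eq_bot.2 rfl
  exact ha (eq_zero_of_pow_eq_zero h3)

end Pool.Agent.DT
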