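import Pool.Agent.Lib.DT.O.Spec

/-!
# Theorem DT, module O6: coprimality
-/

set_option autoImplicit false

open scoped Pointwise nonZeroDivisors

noncomputable section

namespace Pool.Agent.DT

open Pool.Agent.MuZ Pool.Agent.FW NumberField IsDedekindDomain
open Pool.Agent.DI (io ofC io_inj exists_io io_ofC ofC_io VP MP UP TP ex)

variable {k t : ℕ}

theorem O6_iff (a n : Ideal (OO k t)) : PrI a n ↔ IsCoprime a n := Ideal.isCoprime_iff_sup_eq.symm

theorem O6_one {a n : Ideal (OO k t)} (h : PrI a n) : ∃ v ∈ a, ∃ y ∈ n, v + y = 1 := by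
  have h1 : (1 : OO k t) ∈ a ⊔ n := by
    rw [h]
    trivial
  exact Submodule.mem_sup.1 h1

theorem O6_of_one {a n : Ideal (OO k t)} {v y : OO k t} (hv : v ∈ a) (hy : y ∈ n) (e : v + y = 1) :
    PrI a n := by
  refine (Ideal.eq_top_iff_one _).2 ?_
  rw [← e]
  exact Submodule.add_mem_sup hv hy

/-- `N` is a unit of `O` only for `N = 1`. -/
theorem O6_unit {N : ℕ} {u : OO k t} (h : (N : OO k t) * u = 1) : N = 1 := by
  have h1 : Nm ((N : OO k t) * u) = Nm (1 : OO k t) := congrArg Nm h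
  rw [Nm_mul, Nm_nat, Nm_one] at h1
  have h2 : (N : ℤ) ∣ 1 := ⟨N * Nm u, by rw [← h1]; ring⟩
  have h3 : N ∣ 1 := by exact_mod_cast h2
  exact Nat.dvd_one.1 h3

theorem O6_mem [SqT k t] (a : Ideal (OO k t)) : ((NI a : ℕ) : OO k t) ∈ a := Ideal.absNorm_mem a

theorem O6_c5a [SqT k t] (N : ℕ) (a : Ideal (OO k t)) (h : (NI a).Coprime N) : PrI a (sN k t N) := by
  obtain ⟨x, y, hxy⟩ := Nat.isCoprime_iff_coprime.2 h
  refine O6_of_one (v := (x : OO k t) * (NI a : OO k t)) (y := (y : OO k t) * (N : OO k t))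
    (a.mul_mem_left _ (O6_mem a)) (Ideal.mul_mem_left _ _ (Ideal.mem_span_singleton_self _)) ?_
  have h1 : ((x * (NI a : ℤ) + y * (N : ℤ) : ℤ) : OO k t) = ((1 : ℤ) : OO k t) :=
    congrArg (fun s : ℤ => (s : OO k t)) hxy
  push_cast at h1
  exact h1

theorem O6_c5b (h2 : S_O2) [SqT k t] (N : ℕ) (a : Ideal (OO k t)) (h : PrI a (sN k t N)) :
    (NI a).Coprime N := by
  obtain ⟨v, hv, y, hy, e⟩ := O6_one h
  obtain ⟨u, rfl⟩ := Ideal.mem_span_singleton.1 hy
  by_cases ha : a = ⊥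
  · subst ha
    rw [Submodule.mem_bot] at hv
    rw [hv, zero_add] at e
    rw [O6_unit e]
    exact Nat.coprime_one_right _
  · have hNI : NI a ≠ 0 := fun h0 => ha (((h2 k t).2.2.2.2.2.1 a).1 h0)
    have hfin : Finite (OO k t ⧸ a) := Nat.finite_of_card_ne_zero hNI
    by_contra hcon
    obtain ⟨p, hp, hpa, hpN⟩ := Nat.Prime.not_coprime_iff_dvd.1 hcon
    have : Fact p.Prime := ⟨hp⟩
    obtain ⟨x, hx⟩ := exists_prime_addOrderOf_dvd_card' (G := OO k t ⧸ a) p hpa
    obtain ⟨M, rfl⟩ := hpN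
    have hpx : p • x = 0 := by
      rw [← hx]
      exact addOrderOf_nsmul_eq_zero x
    have hx0 : x ≠ 0 := by
      rintro rfl
      rw [addOrderOf_zero] at hx
      exact hp.one_lt.ne hx
    apply hx0
    have e1 : (Ideal.Quotient.mk a v) + ((p * M : ℕ) : OO k t ⧸ a) * Ideal.Quotient.mk a u = 1 := by
      have e2 := congrArg (Ideal.Quotient.mk a) e
      rwa [map_add, map_mul, map_natCast, map_one] at e2
    rw [Ideal.Quotient.eq_zero_iff_mem.2 hv, zero_add] at e1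
    calc x = (((p * M : ℕ) : OO k t ⧸ a) * Ideal.Quotient.mk a u) * x := by rw [e1, one_mul]
      _ = ((M : OO k t ⧸ a) * Ideal.Quotient.mk a u) * (p • x) := by
          rw [nsmul_eq_mul]
          push_cast
          ring
      _ = 0 := by rw [hpx, mul_zero]

theorem O6_c5 (h2 : S_O2) [SqT k t] (N : ℕ) (a : Ideal (OO k t)) :
    PrI a (sN k t N) ↔ (NI a).Coprime N :=
  ⟨O6_c5b h2 N a, O6_c5a N a⟩

/-- Module O6. -/
theorem sO6 (h2 : S_O2) : S_O6 := by
  intro k t _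
  refine ⟨?_, ?_, ?_, ?_, ?_, ?_, ?_, ?_⟩
  · intro a b n
    rw [O6_iff, O6_iff, O6_iff]
    exact IsCoprime.mul_left_iff
  · intro a n n'
    rw [O6_iff, O6_iff, O6_iff]
    exact IsCoprime.mul_right_iff
  · intro a n
    rw [O6_iff, O6_iff]
    exact isCoprime_comm
  · intro a n n' hn h
    exact top_le_iff.1 (h.symm.le.trans (sup_le_sup_left hn a))
  · intro N a
    exact O6_c5 h2 N a
  · intro N v
    rw [O6_c5 h2 N (sp v), ← Nat.isCoprime_iff_coprime, (h2 k t).2.2.2.1 v]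
    rfl
  · intro a v u hvu h
    obtain ⟨w, hw, y, hy, e⟩ := O6_one h
    obtain ⟨x, rfl⟩ := Ideal.mem_span_singleton.1 hw
    refine O6_of_one (v := u * x) (y := (v - u) * x + y) ?_ ?_ ?_
    · exact Ideal.mem_span_singleton.2 ⟨x, rfl⟩
    · exact a.add_mem (a.mul_mem_right _ hvu) hy
    · rw [← e]
      ring
  · intro a n ha h
    obtain ⟨v, hv, y, hy, e⟩ := O6_one h
    by_cases hv0 : v = 0
    · rw [hv0, zero_add] at e
      obtain ⟨w, hw, hw0⟩ := Submodule.exists_mem_ne_zero_of_ne_bot ha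
      refine ⟨w, hw, hw0, ?_⟩
      rw [e] at hy
      have ht : n = ⊤ := (Ideal.eq_top_iff_one _).2 hy
      rw [ht]
      trivial
    · refine ⟨v, hv, hv0, ?_⟩
      have e2 : v - 1 = -y := by
        rw [← e]
        ring
      rw [e2]
      exact n.neg_mem hy

end Pool.Agent.DT
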