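import Pool.Agent.Lib.DT.O.Spec

/-!
# Theorem DT, module O7a: the ray class relation
-/

set_option autoImplicit false

open scoped Pointwise nonZeroDivisors

noncomputable section

namespace Pool.Agent.DT

open Pool.Agent.MuZ Pool.Agent.FW NumberField IsDedekindDomain
open Pool.Agent.DI (io ofC io_inj exists_io io_ofC ofC_io VP MP UP TP ex)

variable {k t : ℕ}

/-- Units of `O` of norm one are `± 1`. -/
theorem O7a_unit [SqT k t] (e : OO k t) (he : Nm e = 1) : e = 1 ∨ e = -1 := by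
  have h4 := four_Nm e
  have hk := hD8 (k := k) (t := t)
  rw [he] at h4
  have him : e.im = 0 := by
    by_contra h0
    have h1 : 1 ≤ e.im ^ 2 := by
      have h3 : 0 < e.im ^ 2 := by positivity
      omega
    nlinarith [sq_nonneg (2 * e.re + t * e.im)]
  rw [him] at h4
  have hre : e.re ^ 2 = 1 := by nlinarith
  rcases sq_eq_one_iff.1 hre with h | h
  · exact Or.inl (ext' (by rw [h, re_one]) (by rw [him, im_one]))
  · exact Or.inr (ext' (by rw [h, QuadraticAlgebra.re_neg, re_one])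
      (by rw [him, QuadraticAlgebra.im_neg, im_one, neg_zero]))

theorem O7a_sp_ne [SqT k t] {v : OO k t} (h : v ≠ 0) : sp v ≠ ⊥ := by
  rwa [Ne, Ideal.span_singleton_eq_bot]

theorem O7a_one [SqT k t] (n : Ideal (OO k t)) : PrI (sp (1 : OO k t)) n := by
  change Ideal.span {(1 : OO k t)} ⊔ n = ⊤
  rw [Ideal.span_singleton_one, top_sup_eq]

theorem O7a_sp_mul [SqT k t] (h6 : S_O6) {n : Ideal (OO k t)} {v u : OO k t} (hv : PrI (sp v) n)
    (hu : PrI (sp u) n) : PrI (sp (v * u)) n := by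
  have h := ((h6 k t).1 (sp v) (sp u) n).2 ⟨hv, hu⟩
  rwa [Ideal.span_singleton_mul_span_singleton] at h

theorem O7a_refl [SqT k t] (n a : Ideal (OO k t)) : Ray n a a :=
  ⟨1, 1, one_ne_zero, one_ne_zero, O7a_one n, O7a_one n, by rw [sub_self]; exact n.zero_mem, rfl⟩

theorem O7a_symm {n a b : Ideal (OO k t)} (h : Ray n a b) : Ray n b a := by
  obtain ⟨α, α', h1, h2, h3, h4, h5, h6⟩ := h
  exact ⟨α', α, h2, h1, h4, h3, by rw [← neg_sub]; exact n.neg_mem h5, h6.symm⟩

theorem O7a_dvd {n : Ideal (OO k t)} {x x' y y' : OO k t} (h : x - x' ∈ n) (h' : y - y' ∈ n) :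
    x * y - x' * y' ∈ n := by
  have e : x * y - x' * y' = y * (x - x') + x' * (y - y') := by ring
  rw [e]
  exact n.add_mem (n.mul_mem_left _ h) (n.mul_mem_left _ h')

theorem O7a_trans [SqT k t] (o6 : S_O6) {n a b c : Ideal (OO k t)} (h : Ray n a b)
    (h' : Ray n b c) : Ray n a c := by
  obtain ⟨α, α', h1, h2, h3, h4, h5, h6⟩ := h
  obtain ⟨β, β', k1, k2, k3, k4, k5, k6⟩ := h'
  refine ⟨α * β, α' * β', mul_ne_zero h1 k1, mul_ne_zero h2 k2, O7a_sp_mul o6 h3 k3,
    O7a_sp_mul o6 h4 k4, O7a_dvd h5 k5, ?_⟩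
  change Ideal.span {α * β} * a = Ideal.span {α' * β'} * c
  rw [← Ideal.span_singleton_mul_span_singleton, ← Ideal.span_singleton_mul_span_singleton]
  calc Ideal.span {α} * Ideal.span {β} * a = Ideal.span {β} * (Ideal.span {α} * a) := by ring
    _ = Ideal.span {β} * (Ideal.span {α'} * b) := by rw [h6]
    _ = Ideal.span {α'} * (Ideal.span {β} * b) := by ring
    _ = Ideal.span {α'} * (Ideal.span {β'} * c) := by rw [k6]
    _ = Ideal.span {α'} * Ideal.span {β'} * c := by ring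

theorem O7a_mul [SqT k t] (o6 : S_O6) {n a b c d : Ideal (OO k t)} (h : Ray n a b)
    (h' : Ray n c d) : Ray n (a * c) (b * d) := by
  obtain ⟨α, α', h1, h2, h3, h4, h5, h6⟩ := h
  obtain ⟨β, β', k1, k2, k3, k4, k5, k6⟩ := h'
  refine ⟨α * β, α' * β', mul_ne_zero h1 k1, mul_ne_zero h2 k2, O7a_sp_mul o6 h3 k3,
    O7a_sp_mul o6 h4 k4, O7a_dvd h5 k5, ?_⟩
  change Ideal.span {α * β} * (a * c) = Ideal.span {α' * β'} * (b * d)
  rw [← Ideal.span_singleton_mul_span_singleton, ← Ideal.span_singleton_mul_span_singleton]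
  calc Ideal.span {α} * Ideal.span {β} * (a * c)
      = (Ideal.span {α} * a) * (Ideal.span {β} * c) := by ring
    _ = (Ideal.span {α'} * b) * (Ideal.span {β'} * d) := by rw [h6, k6]
    _ = Ideal.span {α'} * Ideal.span {β'} * (b * d) := by ring

theorem O7a_cancel [SqT k t] {n a b c : Ideal (OO k t)} (hc : c ≠ ⊥)
    (h : Ray n (a * c) (b * c)) : Ray n a b := by
  obtain ⟨α, α', h1, h2, h3, h4, h5, h6⟩ := h
  refine ⟨α, α', h1, h2, h3, h4, h5, ?_⟩
  rw [← mul_assoc, ← mul_assoc] at h6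
  exact mul_right_cancel₀ (b := c) hc h6

theorem O7a_bot [SqT k t] {n a b : Ideal (OO k t)} (h : Ray n a b) (ha : a ≠ ⊥) : b ≠ ⊥ := by
  obtain ⟨α, α', h1, h2, h3, h4, h5, h6⟩ := h
  rintro rfl
  rw [Ideal.mul_bot] at h6
  rcases Ideal.mul_eq_bot.1 h6 with h | h
  · exact O7a_sp_ne h1 h
  · exact ha h

theorem O7a_pri [SqT k t] (o6 : S_O6) {n a b : Ideal (OO k t)} (h : Ray n a b)
    (ha : PrI a n) : PrI b n := by
  obtain ⟨α, α', h1, h2, h3, h4, h5, h6⟩ := h
  have c1 := (o6 k t).1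
  have h7 : PrI (sp α * a) n := (c1 _ _ n).2 ⟨h3, ha⟩
  rw [h6] at h7
  exact ((c1 _ _ n).1 h7).2

theorem O7a_canc {n : Ideal (OO k t)} {α x : OO k t} (hα : PrI (sp α) n) (h : α * x ∈ n) :
    x ∈ n := by
  have h1 : (1 : OO k t) ∈ sp α ⊔ n := by
    have h2 : sp α ⊔ n = ⊤ := hα
    rw [h2]
    exact Submodule.mem_top
  obtain ⟨y, hy, z, hz, hyz⟩ := Submodule.mem_sup.1 h1
  obtain ⟨c, hc⟩ := Ideal.mem_span_singleton'.1 hy
  have e : x = c * (α * x) + x * z := by
    have e1 : x = (y + z) * x := by rw [hyz, one_mul]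
    rw [← hc] at e1
    linear_combination e1
  rw [e]
  exact n.add_mem (n.mul_mem_left _ h) (n.mul_mem_left _ hz)

theorem O7a_elt [SqT k t] {n : Ideal (OO k t)} {v u : OO k t} (hv : v ≠ 0) (hu : u ≠ 0)
    (cv : PrI (sp v) n) (cu : PrI (sp u) n) : Ray n (sp v) (sp u) ↔ v - u ∈ n ∨ v + u ∈ n := by
  constructor
  · rintro ⟨α, α', h1, h2, h3, h4, h5, h6⟩
    rw [Ideal.span_singleton_mul_span_singleton, Ideal.span_singleton_mul_span_singleton,
      Ideal.span_singleton_eq_span_singleton] at h6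
    obtain ⟨e, he⟩ := h6
    have hNe : Nm (e : OO k t) = 1 := by
      have h7 : Nm (e : OO k t) * Nm ((e⁻¹ : (OO k t)ˣ) : OO k t) = 1 := by
        rw [← Nm_mul, Units.mul_inv, Nm_one]
      exact Int.eq_one_or_neg_one_of_mul_eq_one h7 |>.resolve_right (by
        intro h8
        have := Nm_nonneg (e : OO k t)
        omega)
    rcases O7a_unit _ hNe with h | h
    · left
      rw [h, mul_one] at he
      apply O7a_canc h3
      have e2 : α * (v - u) = (-u) * (α - α') := by linear_combination he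
      rw [e2]
      exact n.mul_mem_left _ h5
    · right
      rw [h] at he
      apply O7a_canc h3
      have e2 : α * (v + u) = u * (α - α') := by linear_combination -he
      rw [e2]
      exact n.mul_mem_left _ h5
  · rintro (h | h)
    · refine ⟨u, v, hu, hv, cu, cv, ?_, ?_⟩
      · rw [← neg_sub]
        exact n.neg_mem h
      · exact mul_comm _ _
    · have e3 : Ideal.span {-v} = sp v := Ideal.span_singleton_neg v
      refine ⟨u, -v, hu, neg_ne_zero.2 hv, cu, ?_, ?_, ?_⟩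
      · change PrI (Ideal.span {-v}) n
        rw [e3]
        exact cv
      · rw [sub_neg_eq_add, add_comm]
        exact h
      · change sp u * sp v = Ideal.span {-v} * sp u
        rw [e3]
        exact mul_comm _ _

theorem O7a_inv [SqT k t] (o6 : S_O6) {n : Ideal (OO k t)} (a : Ideal (OO k t)) (ha : a ≠ ⊥)
    (hp : PrI a n) : ∃ a' : Ideal (OO k t), a' ≠ ⊥ ∧ PrI a' n ∧ Ray n (a * a') ⊤ := by
  obtain ⟨c1, -, -, -, -, -, c7, c8⟩ := o6 k t
  obtain ⟨v, hva, hv0, hv1⟩ := c8 a n ha hp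
  have hdv : a ∣ sp v := Ideal.dvd_iff_le.2 ((Ideal.span_singleton_le_iff_mem a).2 hva)
  obtain ⟨a', ha'⟩ := hdv
  have hv2 : 1 - v ∈ n := by
    rw [← neg_sub]
    exact n.neg_mem hv1
  have cv : PrI (sp v) n := c7 n 1 v hv2 (O7a_one n)
  refine ⟨a', ?_, ?_, ?_⟩
  · rintro rfl
    rw [Ideal.mul_bot] at ha'
    exact O7a_sp_ne hv0 ha'
  · have h1 : PrI (sp v) n := cv
    rw [ha'] at h1
    exact ((c1 _ _ n).1 h1).2
  · rw [← ha']
    refine ⟨1, v, one_ne_zero, hv0, O7a_one n, cv, hv2, ?_⟩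
    change Ideal.span {1} * sp v = sp v * ⊤
    rw [Ideal.span_singleton_one, Ideal.mul_top, Ideal.top_mul]

set_option linter.unusedVariables false in
/-- **O7a**: the ray class relation. -/
theorem sO7a (h2 : S_O2) (h6 : S_O6) : S_O7a := by
  intro k t _ n hn
  refine ⟨O7a_refl n, fun a b h => O7a_symm h, fun a b c h h' => O7a_trans h6 h h',
    fun a b c d h h' => O7a_mul h6 h h', fun a b c hc _ h => O7a_cancel hc h,
    fun a b h => ⟨⟨O7a_bot h, O7a_bot (O7a_symm h)⟩, ⟨O7a_pri h6 h, O7a_pri h6 (O7a_symm h)⟩⟩,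
    ?_, fun v u hv hu cv cu => O7a_elt hv hu cv cu, fun a ha hp => O7a_inv h6 a ha hp⟩
  rintro n' a b hM ⟨α, α', h1, h2, h3, h4, h5, h7⟩
  exact ⟨α, α', h1, h2, (h6 k t).2.2.2.1 _ n n' hM h3, (h6 k t).2.2.2.1 _ n n' hM h4, hM h5, h7⟩

end Pool.Agent.DT
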