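import Pool.Agent.Lib.DT.O.Spec

/-!
# Theorem DT, part 0, module O9: norms modulo `N` depend only on the ray class
-/

set_option autoImplicit false

open scoped Pointwise nonZeroDivisors

noncomputable section

namespace Pool.Agent.DT

open Pool.Agent.MuZ Pool.Agent.FW NumberField IsDedekindDomain
open Pool.Agent.DI (io ofC io_inj exists_io io_ofC ofC_io VP MP UP TP ex)

theorem sO9 (h2 : S_O2) (h6 : S_O6) : S_O9 := by
  intro k t _ N _ a a' hR
  obtain ⟨α, α', _, _, hα, _, hd, he⟩ := hR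
  obtain ⟨_, _, _, hN, hM, _, _, _⟩ := h2 k t
  obtain ⟨_, _, _, _, _, hC, _, _⟩ := h6 k t
  have h0 : IsCoprime (Nm α) (N : ℤ) := (hC N α).1 hα
  have h1 : Nm α * (NI a : ℤ) = Nm α' * (NI a' : ℤ) := by
    rw [← hN, ← hN, ← Nat.cast_mul, ← Nat.cast_mul, ← hM, ← hM]
    exact congrArg (fun I : Ideal (OO k t) => ((NI I : ℕ) : ℤ)) he
  have h3 : (N : ℤ) ∣ Nm α - Nm α' := Nm_congr (Ideal.mem_span_singleton.1 hd)
  have h4 : (N : ℤ) ∣ Nm α * ((NI a : ℤ) - NI a') := by
    have e : Nm α * ((NI a : ℤ) - NI a') = -(Nm α - Nm α') * NI a' := by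
      linear_combination h1
    rw [e]
    exact (h3.neg_right).mul_right _
  exact (IsCoprime.symm h0).dvd_of_dvd_mul_left h4

end Pool.Agent.DT
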