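import Pool.Agent.Lib.DT.O.L0
import Pool.Agent.Lib.DT.O.L1
import Pool.Agent.Lib.DT.O.L2
import Pool.Agent.Lib.DT.O.L3
import Pool.Agent.Lib.DT.O.L4
import Pool.Agent.Lib.DT.O.L5
import Pool.Agent.Lib.DT.O.L6
import Pool.Agent.Lib.DT.O.L6a
import Pool.Agent.Lib.DT.O.O2
import Pool.Agent.Lib.DT.O.O3
import Pool.Agent.Lib.DT.O.O4
import Pool.Agent.Lib.DT.O.O5
import Pool.Agent.Lib.DT.O.O6
import Pool.Agent.Lib.DT.O.O7a
import Pool.Agent.Lib.DT.O.O7b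
import Pool.Agent.Lib.DT.O.O9

/-!
# Theorem DT, parts 0 and L: assembly (complete), without `S_O8`

`aO1` - `aO7`, `aO9`, `aL0` - `aL6`: all without hypotheses. `aO8`: `DT/O/All.lean`.
-/

set_option autoImplicit false

noncomputable section

namespace Pool.Agent.DT

theorem aO1 : S_O1 := s_O1
theorem aO2 : S_O2 := sO2
theorem aO3 : S_O3 := sO3 aO2
theorem aO4 : S_O4 := sO4 aO2
theorem aO5 : S_O5 := sO5
theorem aO6 : S_O6 := sO6 aO2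
theorem aO7a : S_O7a := sO7a aO2 aO6
theorem aO7b : S_O7b := sO7b aO5 aO6 aO7a

theorem aO7 : S_O7 := by
  intro k t _ n hn
  obtain ⟨h1, h2, h3, h4, h5, h6, h7, h8, h9⟩ := aO7a k t n hn
  exact ⟨h1, h2, h3, h4, h5, h6, h7, h8, h9, aO7b k t n hn⟩

theorem aO9 : S_O9 := sO9 aO2 aO6
theorem aL0 : S_L0 := sL0 aO2
theorem aL1 : S_L1 := sL1 aL0
theorem aL2 : S_L2 := sL2 aO3
theorem aL3 : S_L3 := sL3 aL0
theorem aL4 : S_L4 := sL4
theorem aL5 : S_L5 := sL5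
theorem aL6a : S_L6a := sL6a aO4 aL3
theorem aL6 : S_L6 := sL6 aO3 aO4 aO6 aL2 aL5 aL6a

end Pool.Agent.DT
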