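import Pool.Agent.Lib.DT.IfaceO

/-!
# Theorem DT (`p = 3`), parts 0 and L: statements of the modules with proofs (author helper42)

Every statement `S_..` is proved in the file `DT/O/<name>.lean` as `theorem s<name> (hypotheses) : S_<name>`
(e.g. `theorem sO3 (h2 : S_O2) : S_O3`): hypotheses exactly the statements named after (from ..), in that
order. Read `DT/Defs.lean`, `DT/Base.lean` (elementary facts: `Nm_..`, `toC_..`, `lam_..`, `tor_..`; `Cop`, `Deg1`,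
`IsSys`) and `DT/Ded.lean` (`O` is a Dedekind domain; `mem_O`) first. The statements `S_O2` - `S_L6` are in
`DT/IfaceO.lean`. `NI a` is by definition `Ideal.absNorm a`.

PORTS. The modules are ports of the modules of the same name in `DK/O/` (the ring `ℤ[w]`, `w ^ 2 = w - 2 k`,
there; here `w ^ 2 = t w - 3 k`): replace `OO k` by `OO k t`, `[SqK k]` by `[SqT k t]`, `S_..` by the statement of
the same name; the modulus is now an IDEAL `n` (`N : ℕ` there): `Cop α N` becomes `PrI (sp α) n`, `(N : OO k) ∣ x`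
becomes `x ∈ n`. Use `hD8 : 8 ≤ 12 k - t ^ 2` (`DT/Base.lean`) instead of `hk1`.
-/

set_option autoImplicit false

open scoped Pointwise nonZeroDivisors

noncomputable section

namespace Pool.Agent.DT

open Pool.Agent.MuZ Pool.Agent.FW NumberField IsDedekindDomain
open Pool.Agent.DI (io ofC io_inj exists_io io_ofC ofC_io VP MP UP TP ex)

/-- MODULE `O2` (40 lines): `S_O2`. PORT of `DK/O/O2`. `NI = Ideal.absNorm`;
`QuadraticAlgebra.norm v = v.re ^ 2 + t v.re v.im + 3 k v.im ^ 2 = Nm v ≥ 0`. -/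
abbrev M_O2 : Prop := S_O2

/-- MODULE `O3` (200 lines; from `S_O2`): `S_O3`. PORT of `DK/O/O3`. `cjI b = Ideal.map (cjE k t) b`. The identity
`a * cjI a = sN (NI a)`: see the docstring of `DK/O/Spec.lean` (`v cjO v = Nm v`; trace of `v = 2 v.re + t v.im`; a root of
`x ^ 2 - (T/g) x + Nm α Nm β / g ^ 2` is integral, `mem_O`). `cjI (sN N) = sN N`: `cjI (sp v) = sp (cjO v)`,
`cjO_nat`. `PrI (cjI a) (cjI n)`: apply `Ideal.map` to `a ⊔ n = ⊤` (`Ideal.map_sup`, `Ideal.map_top`), and the involution for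
the converse. `cjI a ≠ ⊥`: `cjI (cjI a) = a`. Last claim: conjugate `α`, `α'`; `cjI (sp α) = sp (cjO α)`, so
`PrI (sp (cjO α)) (cjI n)`; `cjO α - cjO α' = cjO (α - α') ∈ cjI n` (first claim, `cjO_cjO`). -/
abbrev M_O3 : Prop := S_O3

/-- MODULE `O4` (180 lines; from `S_O2`): `S_O4`. PORT of `DK/O/O4` with `3` instead of `2`. PROOF. `t` is `1` or
`4` (`SqT.out`), so `t = 1 + 3 e` with `e = 0, 1`. Membership: `{v | 3 ∣ v.re}` is an ideal (`re_mul`), contains `3`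
and `w`; `x + y w` with `3 ∣ x` is in `pp`. `{v | 3 ∣ v.re + v.im}` is an ideal: for `v = x + y w`, `u = a + b w` the sum
`re + im` of `v u` is `x a - 3 k y b + x b + y a + t y b`, congruent to `(x + y) (a + b)` modulo `3`; it contains `3` and
`1 - w`; `x + y w = (x + y) - y (1 - w)`. Prime: `v.re` modulo `3` is multiplicative (`re_mul`), and so is `v.re + v.im`;
the quotients have three elements (kernels of surjective ring homomorphisms to `ZMod 3`; or `NI` from the product: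
`NI pp * NI ppb = Nm 3 = 9` (`S_O2`) and both are `≠ 1`). `w (1 - w) = w - w ^ 2 = (1 - t) w + 3 k ∈ sp 3`,
so `pp * ppb ≤ sN 3`; `3 = 3 w + 3 (1 - w)`, and `3 w ∈ pp * ppb` (`w ∈ pp`, `3 ∈ ppb`), `3 (1 - w) ∈ pp * ppb`:
equality. `1 = w + (1 - w)`. Conjugation: `cjO w = t - w`, and `t - w - (1 - w) = t - 1` is divisible by `3`: use the
membership criteria: `cjO v = (x + t y) - y w`; `3 ∣ (cjO v).re + (cjO v).im = x + (t - 1) y` iff `3 ∣ x`. `cjI pp` is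
the image of `pp` under `cjO` (an ideal: `Ideal.map`; or: `v ∈ cjI b` iff `cjO v ∈ b`, which you may prove as in
`DK/O/O4` or `DK/O/O3`). -/
abbrev M_O4 : Prop := S_O4

/-- MODULE `O5` (50 lines): `S_O5`. PORT of `DK/O/O5`; please keep the lemma
`theorem O5_finite (k t : ℕ) [SqT k t] : Finite (ClassGroup (OO k t))`. -/
abbrev M_O5 : Prop := S_O5

/-- MODULE `O6` (150 lines; from `S_O2`): `S_O6`. Compare `DK/O/O6`. PROOF. `PrI a n` is `IsCoprime a n`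
(`Ideal.isCoprime_iff_sup_eq`), `1 = v + y`, `v ∈ a`, `y ∈ n` (`Submodule.mem_sup`, `Ideal.eq_top_iff_one`). Claims 1, 2:
`IsCoprime.mul_left_iff`, `mul_right_iff`; 3: `sup_comm`; 4: `sup_le_sup_left`. Claim 5: as `O6_c3` (all `N`, also `0`).
Claim 6: claim 5 for `sp v` and `NI (sp v) = Nm v`, `Int.isCoprime_iff_gcd_eq_one` (as in `DK/O/O6`). Claim 7: `1 = x v + y`,
`y ∈ a`; `1 = x u + (x (v - u) + y)`. Claim 8: `1 = v + y`; if `v = 0` then `1 ∈ n` and any nonzero `v` of `a` will do. -/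
abbrev M_O6 : Prop := S_O6

/-- MODULE `O7a` (180 lines; from `S_O2`, `S_O6`). THE RAY CLASS RELATION without finiteness. Compare `DK/O/O7a`.
PROOF. Multiply the relations (`S_O6` (1) for `PrI`, `α β - α' β' = (α - α') β + α' (β - β') ∈ n`); cancel `c ≠ ⊥` in the
Dedekind domain. `Ray n a b` implies (`a ≠ ⊥ ↔ b ≠ ⊥`) and (`PrI a n ↔ PrI b n`) (`S_O6` (1)). Monotone:
`S_O6` (4). Elements: `α v = ε α' u`, `ε` a unit, `Nm ε = 1`, so `4 = (2 ε.re + t ε.im) ^ 2 + D ε.im ^ 2`, `D ≥ 8`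
(`four_Nm`, `hD8`), `ε.im = 0`, `ε = ± 1`; then `α (v ∓ u) ∈ n` and `α` is invertible modulo `n` (`1 = x α + y`, `y ∈ n`).
Conversely: `α = u`, `α' = ± v`. The inverse: claim 8 of `S_O6`: `v ∈ a`, `v - 1 ∈ n`, `v ≠ 0`; `sp v = a * a'`
(`Ideal.dvd_iff_le`), `Ray n (sp v) ⊤` with `α = 1`, `α' = v` (`PrI (sp v) n`: claim 7). -/
def S_O7a : Prop :=
  ∀ (k t : ℕ) [SqT k t] (n : Ideal (OO k t)), n ≠ ⊥ →
    (∀ a : Ideal (OO k t), Ray n a a) ∧ (∀ a b : Ideal (OO k t), Ray n a b → Ray n b a) ∧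
    (∀ a b c : Ideal (OO k t), Ray n a b → Ray n b c → Ray n a c) ∧
    (∀ a b c d : Ideal (OO k t), Ray n a b → Ray n c d → Ray n (a * c) (b * d)) ∧
    (∀ a b c : Ideal (OO k t), c ≠ ⊥ → PrI c n → Ray n (a * c) (b * c) → Ray n a b) ∧
    (∀ a b : Ideal (OO k t), Ray n a b → (a ≠ ⊥ ↔ b ≠ ⊥) ∧ (PrI a n ↔ PrI b n)) ∧
    (∀ n' a b : Ideal (OO k t), n ≤ n' → Ray n a b → Ray n' a b) ∧
    (∀ v u : OO k t, v ≠ 0 → u ≠ 0 → PrI (sp v) n → PrI (sp u) n →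
      (Ray n (sp v) (sp u) ↔ v - u ∈ n ∨ v + u ∈ n)) ∧
    ∀ a : Ideal (OO k t), a ≠ ⊥ → PrI a n → ∃ a' : Ideal (OO k t), a' ≠ ⊥ ∧ PrI a' n ∧ Ray n (a * a') ⊤

/-- MODULE `O7b` (150 lines; from `S_O5`, `S_O6`, `S_O7a`). FINITENESS OF THE RAY CLASS GROUP. PORT of `DK/O/O7b`
(`OO k t ⧸ n` is finite: `Ideal.finiteQuotientOfFreeOfNeBot`; import `DK/O`'s analogue `DT/O/O5.lean` for `O5_finite`,
or prove the finiteness of the class group again in your file with the prefix `O7b_`). -/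
def S_O7b : Prop := ∀ (k t : ℕ) [SqT k t] (n : Ideal (OO k t)), n ≠ ⊥ →
  ∃ R : Finset (Ideal (OO k t)), IsRC n R

/-- MODULE `O8a` (160 lines). PRIMITIVE REPRESENTATIVES. PORT of `DK/O/O8a` (integer moduli; the same proof). -/
def S_O8a : Prop :=
  ∀ (k t : ℕ) [SqT k t] (N M : ℕ), 0 < N → 0 < M → ∀ β₀ : OO k t, Cop β₀ N →
    ∃ β : OO k t, β ≠ 0 ∧ (N : OO k t) ∣ β - β₀ ∧ Cop β (N * M) ∧ IsCoprime β.re β.im

/-- MODULE `O8b` (120 lines; from `S_O2`). PRIMITIVE ELEMENTS ARE PRODUCTS OF PRIMES OF DEGREE ONE. PORT of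
`DK/O/O8b`. -/
def S_O8b : Prop :=
  ∀ (k t : ℕ) [SqT k t] (β : OO k t), β ≠ 0 → IsCoprime β.re β.im → ∀ C : Ideal (OO k t) → Prop, C ⊤ →
    (∀ a b, C a → C b → C (a * b)) → (∀ (q : Ideal (OO k t)) (l : ℕ), Deg1 q l → (l : ℤ) ∣ Nm β → C q) →
    C (sp β)

/-- MODULE `O8c` (200 lines; from `S_O2`, `S_O6`, `S_O7`, `S_O8a`, `S_O8b`). INTEGER MODULI. PORT of `DK/O/O8`
(the statement `S_O8` there): `Ray N` there is `Ray (sN N)` here, `PrI a N` is `PrI a (sN N)`; `Cop v N` iff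
`PrI (sp v) (sN N)` (`S_O6`); `(N : OO) ∣ x` iff `x ∈ sN N` (`Ideal.mem_span_singleton`). -/
def S_O8c : Prop :=
  ∀ (k t : ℕ) [SqT k t] (N M : ℕ), 0 < N → 0 < M → ∀ C : Ideal (OO k t) → Prop, C ⊤ →
    (∀ a b, C a → C b → C (a * b)) →
    (∀ (q : Ideal (OO k t)) (l : ℕ), Deg1 q l → l.Coprime (N * M) → C q) →
    ∀ a : Ideal (OO k t), a ≠ ⊥ → PrI a (sN k t N) →
      ∃ a' : Ideal (OO k t), a' ≠ ⊥ ∧ PrI a' (sN k t (N * M)) ∧ C a' ∧ Ray (sN k t N) a a'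

/-- MODULE `O8m` (120 lines; from `S_O2`, `S_O6`, `S_O7`). MOVING: every class modulo `n` contains an ideal prime
to `M`. NEW. PROOF. (1) There is `α ∈ a` with `a = a * (n * sN M) ⊔ sp α` (`IsDedekindDomain.exists_sup_span_eq`,
`J = a * (n * sN M) ≤ a`, `J ≠ ⊥`). `sp α = a * c` (`Ideal.dvd_iff_le`), `α ≠ 0` may be assumed: if `α = 0` then
`a = a * (n * sN M)`, `n * sN M = ⊤` (cancel), so `n = ⊤` and `sN M = ⊤`: take `a' = a`. Cancel `a` in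
`a * (n * sN M) ⊔ a * c = a`: `c ⊔ n * sN M = ⊤`, so `c` is prime to `n` and to `sN M` (`S_O6`). `α` is prime to `n`
(`sp α = a * c`). (2) There is `β ≠ 0` with `β - α ∈ n` and `sp β` prime to `sN M`: write the set of the prime ideals `P`
which contain `sN M` but not `n`; it is finite (divisors of `sN M`); let `m'` be their product (`⊤` if there are
none): `m' ⊔ n = ⊤`, `1 = x + y`, `x ∈ m'`, `y ∈ n`; `β = α x + y`: `β - α = (1 - α) y ∈ n`, `β - 1 = (α - 1) x ∈ m'`. If a prime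
ideal `P` contains `β` and `sN M`: if `n ≤ P` then `α ∈ P`, but `α` is prime to `n`; if not, `m' ≤ P` and `1 ∈ P`. So
`sp β ⊔ sN M = ⊤` (`Ideal.exists_le_maximal`). If `β = 0` then `sN M = ⊤`, and replace `β` by `α`.
(SIMPLER for `m'`: by strong induction, or take `m'` with `sN M = m' * m''`, where ..; any proof of (2) will do, e.g. the
Chinese remainder theorem `IsDedekindDomain.exists_forall_sub_mem_ideal` for the prime ideals `P` dividing `sN M` and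
not `n`, and for `n`.) (3) By finiteness (`S_O7`, `IsRC n R`) two of the powers of `c` have the same class modulo `n`,
so (cancel) `Ray n (c ^ h) ⊤` with `h ≥ 1`; `a' = sp β * c ^ (h - 1)`: `Ray n (sp α) (sp β)` (`S_O7`),
`Ray n (a * c) (sp β)`, `Ray n (a * c * c ^ (h - 1)) (sp β * c ^ (h - 1))` and `Ray n (a * c ^ h) a`. -/
def S_O8m : Prop :=
  ∀ (k t : ℕ) [SqT k t] (n : Ideal (OO k t)) (M : ℕ), n ≠ ⊥ → 0 < M → ∀ a : Ideal (OO k t), a ≠ ⊥ →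
    PrI a n → ∃ a' : Ideal (OO k t), a' ≠ ⊥ ∧ PrI a' (sN k t M) ∧ Ray n a a'

/-- MODULE `O8` (40 lines; from `S_O2`, `S_O6`, `S_O7`, `S_O8c`, `S_O8m`): `S_O8`. PROOF. `S_O8m` for `n`,
`NI n * M`: `a₁` prime to `NI n * M`, `Ray n a a₁`. `NI n > 0` (`S_O2`), `NI n ∈ n` (`Ideal.absNorm_mem`), so
`sN (NI n) ≤ n`. `S_O8c` for `N = NI n`, `M` and `a₁`: `a'` with `Ray (sN (NI n)) a₁ a'`, so `Ray n a₁ a'` (`S_O7`,
monotone). -/
abbrev M_O8 : Prop := S_O8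

/-- MODULE `O9` (40 lines; from `S_O2`, `S_O6`): `S_O9`. PORT of `DK/O/O9`. `Nm α * NI a = Nm α' * NI a'`,
`N ∣ Nm α - Nm α'` (`Nm_congr`), `Nm α` is prime to `N` (`S_O6`). -/
abbrev M_O9 : Prop := S_O9

/-! ## Lattices -/

/-- MODULE `L0` (90 lines; from `S_O2`). `Lam I` AS AN IDEAL. PORT of `DK/O/L0`. -/
def S_L0 : Prop :=
  ∀ (k t : ℕ) [SqT k t] (I : Ideal (OO k t)), I ≠ ⊥ →
    (∃ n : ℕ, 0 < n ∧ (n : OO k t) ∈ I) ∧ (∀ n : ℕ, 0 < n → (n : OO k t) ∈ I → ∃ c : Ideal (OO k t),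
      c ≠ ⊥ ∧ I * c = sN k t n) ∧
    ∀ (n : ℕ) (c : Ideal (OO k t)), 0 < n → I * c = sN k t n →
      ∀ z : ℂ, z ∈ Lam I ↔ ∃ v ∈ c, z = toC v / n

/-- MODULE `L1` (120 lines; from `S_L0`): `S_L1`. PORT of `DK/O/L1`. -/
abbrev M_L1 : Prop := S_L1

/-- MODULE `L2` (50 lines; from `S_O3`): `S_L2`. PORT of `DK/O/L2`. `sN N = sp (N : OO)`, `toC_nat`. Conjugation
(every `b`): `v ∈ cjI b ↔ cjO v ∈ b` (`S_O3`), `conj (toC v * z) = toC (cjO v) * conj z` (`conj_toC`), `cjO_cjO`. -/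
abbrev M_L2 : Prop := S_L2

/-- MODULE `L3` (190 lines; from `S_L0`): `S_L3`. PORT of `DK/O/L3`. -/
abbrev M_L3 : Prop := S_L3

/-- MODULE `L4` (80 lines): `S_L4`. PORT of `DK/O/L4`. -/
abbrev M_L4 : Prop := S_L4

/-- MODULE `L5` (50 lines): `S_L5`. Compare `DK/O/L5`. PROOF. `1 = v + y`, `v ∈ a`, `y ∈ n`. (1) `z = toC v z + toC y z`
(`lam_prod`). (2) `z' = toC v z`: for `u ∈ n`, `toC u z' = toC v (toC u z)` with `toC u z ∈ Lam (a * b)`, so it is in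
`Lam b`; `z - z' = toC y z ∈ Lam (a * b)` (`z ∈ Lam (n * (a * b))`). -/
abbrev M_L5 : Prop := S_L5

/-- MODULE `L6a` (230 lines; from `S_O4`, `S_L3`): `S_L6a`. Compare `DK/O/L6a`. THE POINTS `T`, `S`, `t` on one
curve. PROOF. For `m = pp`, `ppb ^ 2` the element `g = gen m b` is the chosen one in `S_L3` (1) (`dif_pos`,
`choose_spec`): `g ∈ Lam (m b)`, `g ∉ Lam (m' b)` for `m < m'`; by `S_L3` (2) `toC v * g ∈ Lam b` iff `v ∈ m`, and every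
`z ∈ Lam (m b)` is `toC v * g` modulo `Lam b`. By `S_O4` every `v` is congruent to an integer modulo `pp` (`v.re`) and
modulo `ppb` (`v.re + v.im`). (T) `m = pp`: `v ≡ 0, 1, -1`; `3 ∈ pp`, `2 ∉ pp`. (t) `m = ppb ^ 2`: `3 ∈ ppb`, `9 ∈ ppb ^ 2`,
`3 ∉ ppb ^ 2` (`sN 3 = pp * ppb`; `ppb ^ 2 ∣ pp * ppb` gives `ppb ∣ pp`, `pp ≤ ppb`, `ppb = ⊤`). So for an integer `j`:
`j ∈ ppb ^ 2` iff `9 ∣ j` (if `3 ∤ j` then `j ∉ ppb`; `j = 3 j'`, `3 ∤ j'`: `j j'' - 3 ∈ 9 ℤ` for some `j''`, so `3 ∈ ppb ^ 2`).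
Every `v ∈ O` is congruent to an integer modulo `ppb ^ 2`: `v = n + x` with `x ∈ ppb`, and `x = 3 u + x'` with
`x' ∈ ppb ^ 2`: `ppb = ppb * (pp ⊔ ppb) = pp * ppb ⊔ ppb ^ 2 = sN 3 ⊔ ppb ^ 2` (`Ideal.mul_sup`); and `u = n' + x''`
with `x'' ∈ ppb`, `3 x'' ∈ ppb ^ 2`. Hence the claims on `t`: `j t ∈ Lam b` iff `9 ∣ j`; every `z ∈ Lam (ppb ^ 2 b)` is
`j t` modulo `Lam b`. `t ∉ Lam (ppb b)` as `ppb ^ 2 < ppb`. `3 t ∈ Lam (ppb b)` (`3 v ∈ ppb ^ 2` for `v ∈ ppb`). (S)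
`S = 3 t` (definition of `ptS`): `S ∉ Lam b`, `3 S = 9 t ∈ Lam b`, `2 S = 6 t ∉ Lam b`. If `z ∈ Lam (ppb b)` then
`z ∈ Lam (ppb ^ 2 b)`, `z ≡ j t`; `3 z ∈ Lam b` (`3 ∈ ppb`), so `9 ∣ 3 j`, `j = 3 j'`, `z ≡ j' S`, `j' ≡ 0, 1, -1` modulo `3`.
`t ± S ∉ Lam (ppb b)` as `S ∈ Lam (ppb b)`. LAST CLAIM on `t`: `z ≡ j t`, `3 ∤ j` (else `z ∈ Lam (ppb b)`), so `j` is congruent
modulo `9` to `1, 4, -2` (`t`, `t + S`, `t - S`) or to `-1, -4, 2`. `Lam (pp b) ∩ Lam (ppb b) = Lam b`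
(`z = w z + (1 - w) z`, `w ∈ pp`, `1 - w ∈ ppb`, `lam_prod`): so `T ∉ Lam (ppb b)`, `S ∉ Lam (pp b)`, `S ± T ∉ Lam b` (else
`S ∈ Lam (pp b)`). `3 z ∈ Lam b`: `z ∈ Lam (pp (ppb b))` (`sN 3 = pp * ppb`, `lam_sp`), `w z ∈ Lam (ppb b)`,
`(1 - w) z ∈ Lam (pp b)`: `i S`, `j T` with `i, j ∈ {0, 1, -1}`. -/
abbrev M_L6a : Prop := S_L6a

/-- MODULE `L6` (230 lines; from `S_O3`, `S_O4`, `S_O6`, `S_L2`, `S_L5`, `S_L6a`): `S_L6`. Compare `DK/O/L6`. PROOF. (0) Let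
`b' ≠ ⊥`, `z ∈ Lam (pp b')`, `z ∉ Lam b'`: `z - ptT b'` or `z + ptT b'` is in `Lam b'` (`S_L6a` for `b'`), so (negate)
`ptT b' - z` or `ptT b' + z` is; the same for `ppb`, `ptS`. If `z ∈ Lam (ppb ^ 2 b')`, `z ∉ Lam (ppb b')`: `z - i ptt b' ∈ Lam b'`
with `3 ∤ i` (else `z ∈ Lam (ppb b')`, as `3 t ∈ Lam (ppb b')`), and, with `i j ≡ 1` modulo `9`,
`ptt b' - j z ∈ Lam b'` (`9 ptt b' ∈ Lam b'`), `3 ∤ j`. (1) `b' = ppb b`: `T ∈ Lam (pp b) ≤ Lam (pp b')`, `T ∉ Lam b'`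
(`S_L6a`); `t ∈ Lam (ppb ^ 2 b) = Lam (ppb b')`, `t ∉ Lam b'`. (2) `b' = pp b`: `S ∈ Lam (ppb b) ≤ Lam (ppb b')`,
`S ∉ Lam b'`; `t ∈ Lam (ppb ^ 2 b')`; if `t ∈ Lam (ppb (pp b)) = Lam (pp (ppb b))` then, with `t ∈ Lam (ppb (ppb b))`,
`t ∈ Lam (ppb b)` (intersection, as in `L6a`), a contradiction. (3) `b' = a b`, `a` prime to `3`, so prime to `pp`, `ppb`,
`ppb ^ 2` (`S_O6`; `sN 3 = pp * ppb`): `T ∉ Lam (a b)` by `S_L5` (`n = pp`), `S ∉ Lam (a b)` (`n = ppb`); `t ∉ Lam (ppb (a b))`: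
`S_L5` for `ppb b` instead of `b` (`n = ppb`, `Lam (a (ppb b)) = Lam (ppb (a b))`, `t ∈ Lam (ppb (ppb b))`). (4) `α`:
`z ∈ Lam (sp α * b)` iff `toC α z ∈ Lam b` (`lam_sp`), also for `pp * (sp α * b) = sp α * (pp * b)` etc.; (0) for `b` and
`z = toC α * ptT (sp α * b)`, with the signs as stated. (5) `S_L2` (`z ∈ Lam (cjI b) ↔ conj z ∈ Lam b`),
`cjI (pp * b) = ppb * cjI b`; (0) for `cjI b` (`≠ ⊥`). (6) `S₀ = wC/3 = toC (wI)/3`: for `v ∈ ppb`: `v w ∈ pp * ppb = sN 3`, so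
`toC v * S₀ ∈ O`; so `S₀ ∈ Lam (ppb b)` (`v ∈ ppb * b ≤ ppb`) and `toC (α ∓ 1) * S₀ ∈ O`, and `toC x ∈ Lam b` for all `x`.
If `S₀ ∈ Lam b`, `PrI b ppb`: `1 = v + y`, `v ∈ b`, `y ∈ ppb`: `toC v S₀ ∈ O`, `toC y S₀ ∈ O`, so `S₀ = toC x`, `w = 3 x`, false
(imaginary parts, `toC_inj`). Then (0). -/
abbrev M_L6 : Prop := S_L6

end Pool.Agent.DT
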