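import Pool.Agent.Lib.DT.O.Spec

/-!
# Theorem DT, module O8: every ray class contains a product of primes of degree one
-/

set_option autoImplicit false

open scoped Pointwise nonZeroDivisors

noncomputable section

namespace Pool.Agent.DT

open Pool.Agent.MuZ Pool.Agent.FW NumberField IsDedekindDomain
open Pool.Agent.DI (io ofC io_inj exists_io io_ofC ofC_io VP MP UP TP ex)

private theorem O8_mem {k t : ℕ} [SqT k t] (n : Ideal (OO k t)) : ((NI n : ℕ) : OO k t) ∈ n :=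
  Ideal.absNorm_mem n

theorem sO8 (h2 : S_O2) (h6 : S_O6) (h7 : S_O7) (h8c : S_O8c) (h8m : S_O8m) : S_O8 := by
  intro k t _ n M hn hM C hC1 hCm hC a ha haP
  have hNI : 0 < NI n := Nat.pos_of_ne_zero fun h => hn (((h2 k t).2.2.2.2.2.1 n).1 h)
  have hNM : 0 < NI n * M := Nat.mul_pos hNI hM
  obtain ⟨a₁, ha₁, ha₁P, ha₁R⟩ := h8m k t n (NI n * M) hn hNM a ha haP
  have hle : sN k t (NI n) ≤ n := (Ideal.span_singleton_le_iff_mem n).2 (O8_mem n)
  have hs0 : sN k t (NI n) ≠ ⊥ := by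
    intro h
    have h1 : ((NI n : ℕ) : OO k t) = 0 := Ideal.span_singleton_eq_bot.1 h
    have h3 := congrArg Nm h1
    rw [Nm_nat, Nm_zero] at h3
    have h4 : (NI n : ℤ) = 0 := by simpa using h3
    omega
  have ha₁N : PrI a₁ (sN k t (NI n)) := by
    rw [(h6 k t).2.2.2.2.1] at ha₁P ⊢
    exact Nat.Coprime.coprime_mul_right_right ha₁P
  obtain ⟨a', h1, h3, h4, h5⟩ := h8c k t (NI n) M hNI hM C hC1 hCm hC a₁ ha₁ ha₁N
  exact ⟨a', h1, h3, h4, (h7 k t n hn).2.2.1 _ _ _ ha₁R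
    ((h7 k t _ hs0).2.2.2.2.2.2.1 n _ _ hle h5)⟩

end Pool.Agent.DT
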