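import Pool.Agent.Lib.DT.O.Spec

/-!
# Theorem DT, module O8c: every ray class (integer moduli) contains a product of primes of
degree one (helper50)
-/

set_option autoImplicit false

open scoped Pointwise nonZeroDivisors

noncomputable section

namespace Pool.Agent.DT

open Pool.Agent.MuZ Pool.Agent.FW NumberField IsDedekindDomain
open Pool.Agent.DI (io ofC io_inj exists_io io_ofC ofC_io VP MP UP TP ex)

variable {k t : ℕ}

private theorem O8c_NI [SqT k t] (a : Ideal (OO k t)) : NI a = Ideal.absNorm a := rfl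

/-- A prime ideal which contains a positive integer contains a prime number. -/
private theorem O8c_exists_prime (P : Ideal (OO k t)) (hP : P.IsPrime) (n : ℕ) :
    n ≠ 0 → (n : OO k t) ∈ P → ∃ p : ℕ, p.Prime ∧ (p : OO k t) ∈ P := by
  induction n using induction_on_primes with
  | zero => exact fun h => absurd rfl h
  | one =>
    intro _ h
    rw [Nat.cast_one] at h
    exact absurd ((Ideal.eq_top_iff_one P).2 h) hP.ne_top
  | prime_mul p a hp ih =>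
    intro h0 h
    rw [Nat.cast_mul] at h
    rcases hP.mem_or_mem h with h1 | h1
    · exact ⟨p, hp, h1⟩
    · exact ih (fun h2 => h0 (by rw [h2, mul_zero])) h1

/-- A nonzero prime ideal contains a prime number `p`; its norm is `p`, or it is generated by `p`. -/
private theorem O8c_prime_cases (h2 : S_O2) [SqT k t] (P : Ideal (OO k t)) (hP : P.IsPrime)
    (h0 : P ≠ ⊥) : ∃ p : ℕ, p.Prime ∧ (p : OO k t) ∈ P ∧ (NI P = p ∨ P = sp (p : OO k t)) := by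
  obtain ⟨-, -, -, hsp, hmul, hbot, -, -⟩ := h2 k t
  have hN : NI P ≠ 0 := fun h => h0 ((hbot P).1 h)
  have hmem : ((NI P : ℕ) : OO k t) ∈ P := Ideal.absNorm_mem P
  obtain ⟨p, hp, hpP⟩ := O8c_exists_prime P hP (NI P) hN hmem
  refine ⟨p, hp, hpP, ?_⟩
  have hle : sp (p : OO k t) ≤ P := (Ideal.span_singleton_le_iff_mem P).2 hpP
  obtain ⟨J, hJ⟩ := Ideal.dvd_iff_le.2 hle
  have h3 : NI P * NI J = p ^ 2 := by
    have h4 : (NI (sp (p : OO k t)) : ℤ) = (p : ℤ) ^ 2 := by rw [hsp, Nm_nat]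
    rw [hJ, hmul] at h4
    exact_mod_cast h4
  obtain ⟨i, hi, h5⟩ := (Nat.dvd_prime_pow hp).1 (Dvd.intro _ h3)
  have hi3 : i = 0 ∨ i = 1 ∨ i = 2 := by omega
  rcases hi3 with rfl | rfl | rfl
  · rw [pow_zero, O8c_NI] at h5
    exact absurd (Ideal.absNorm_eq_one_iff.1 h5) hP.ne_top
  · left
    rw [h5, pow_one]
  · right
    rw [h5] at h3
    have h6 : NI J = 1 := by
      have h7 : 0 < p ^ 2 := pow_pos hp.pos 2
      exact Nat.eq_of_mul_eq_mul_left h7 (by rw [h3, mul_one])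
    rw [O8c_NI] at h6
    rw [hJ, Ideal.absNorm_eq_one_iff.1 h6, Ideal.mul_top]

private theorem O8c_sN_ne [SqT k t] {n : ℕ} (hn : 0 < n) : sN k t n ≠ ⊥ := by
  intro h
  have h1 : (n : OO k t) = 0 := Ideal.span_singleton_eq_bot.1 h
  have h2 := congrArg Nm h1
  rw [Nm_nat, Nm_zero] at h2
  have h3 : (n : ℤ) = 0 := by simpa using h2
  omega

private theorem O8c_sN_le {N M : ℕ} : sN k t (N * M) ≤ sN k t N := by
  rw [Ideal.span_singleton_le_span_singleton, Nat.cast_mul]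
  exact Dvd.intro _ rfl

/-- The conclusion of `S_O8c` for the ideal `a`. -/
private def O8c_Good (N M : ℕ) (C : Ideal (OO k t) → Prop) (a : Ideal (OO k t)) : Prop :=
  ∃ a' : Ideal (OO k t), a' ≠ ⊥ ∧ PrI a' (sN k t (N * M)) ∧ C a' ∧ Ray (sN k t N) a a'

private theorem O8c_PrI_top (n : Ideal (OO k t)) : PrI (⊤ : Ideal (OO k t)) n := top_sup_eq _

private theorem O8c_mul_ne_bot [SqT k t] {a b : Ideal (OO k t)} (ha : a ≠ ⊥) (hb : b ≠ ⊥) :
    a * b ≠ ⊥ :=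
  mul_ne_zero (a := a) (b := b) ha hb

private theorem O8c_low (h6 : S_O6) [SqT k t] {N M : ℕ} {a : Ideal (OO k t)}
    (h : PrI a (sN k t (N * M))) : PrI a (sN k t N) :=
  (h6 k t).2.2.2.1 a _ _ O8c_sN_le h

/-- Good ideals are closed under products. -/
private theorem O8c_good_mul (h6 : S_O6) (h7 : S_O7) [SqT k t] {N M : ℕ} (hN : 0 < N)
    {C : Ideal (OO k t) → Prop} (hCm : ∀ a b, C a → C b → C (a * b)) {a b : Ideal (OO k t)}
    (ha : O8c_Good N M C a) (hb : O8c_Good N M C b) : O8c_Good N M C (a * b) := by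
  obtain ⟨a', ha0, haP, haC, haR⟩ := ha
  obtain ⟨b', hb0, hbP, hbC, hbR⟩ := hb
  exact ⟨a' * b', O8c_mul_ne_bot ha0 hb0, ((h6 k t).1 a' b' _).2 ⟨haP, hbP⟩, hCm a' b' haC hbC,
    (h7 k t _ (O8c_sN_ne hN)).2.2.2.1 a a' b b' haR hbR⟩

/-- The property depends only on the class. -/
private theorem O8c_good_ray (h7 : S_O7) [SqT k t] {N M : ℕ} (hN : 0 < N)
    {C : Ideal (OO k t) → Prop} {a b : Ideal (OO k t)}
    (ha : O8c_Good N M C a) (hR : Ray (sN k t N) b a) : O8c_Good N M C b := by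
  obtain ⟨a', ha0, haP, haC, haR⟩ := ha
  exact ⟨a', ha0, haP, haC, (h7 k t _ (O8c_sN_ne hN)).2.2.1 b a a' hR haR⟩

private theorem O8c_pow (h6 : S_O6) [SqT k t] {N M : ℕ} {C : Ideal (OO k t) → Prop} (hC1 : C ⊤)
    (hCm : ∀ a b, C a → C b → C (a * b)) {a : Ideal (OO k t)} (h0 : a ≠ ⊥)
    (hP : PrI a (sN k t (N * M))) (hC : C a) (n : ℕ) :
    a ^ n ≠ ⊥ ∧ PrI (a ^ n) (sN k t (N * M)) ∧ C (a ^ n) := by
  induction n with
  | zero =>
    rw [pow_zero, Ideal.one_eq_top]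
    exact ⟨top_ne_bot, O8c_PrI_top _, hC1⟩
  | succ n ih =>
    rw [pow_succ]
    exact ⟨O8c_mul_ne_bot ih.1 h0, ((h6 k t).1 _ _ _).2 ⟨ih.2.1, hP⟩, hCm _ _ ih.2.2 hC⟩

/-- The inverse class of a good ideal is good. -/
private theorem O8c_good_inv (h6 : S_O6) (h7 : S_O7) [SqT k t] {N M : ℕ} (hN : 0 < N)
    {C : Ideal (OO k t) → Prop} (hC1 : C ⊤) (hCm : ∀ a b, C a → C b → C (a * b))
    {a a₁ : Ideal (OO k t)} (ha : O8c_Good N M C a) (hR : Ray (sN k t N) (a * a₁) ⊤) :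
    O8c_Good N M C a₁ := by
  obtain ⟨hrefl, hsymm, htrans, hmul, hcan, -, -, -, -, R, hRC⟩ := h7 k t _ (O8c_sN_ne hN)
  obtain ⟨a', ha0, haP, haC, haR⟩ := ha
  have hpow := O8c_pow h6 hC1 hCm ha0 haP haC
  have haN : ∀ n : ℕ, PrI (a' ^ n) (sN k t N) := fun n => O8c_low h6 (hpow n).2.1
  -- two powers of `a'` have the same class
  have hex : ∀ n : ℕ, ∃ b ∈ R, Ray (sN k t N) (a' ^ n) b := fun n => hRC.ex _ (hpow n).1 (haN n)
  choose f hfR hf using hex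
  obtain ⟨m, -, n, -, hmn, hfmn⟩ := Set.infinite_univ.exists_ne_map_eq_of_mapsTo
    (f := f) (t := (R : Set (Ideal (OO k t)))) (fun n _ => hfR n) R.finite_toSet
  have key : ∀ m n : ℕ, m < n → f m = f n → ∃ j : ℕ, Ray (sN k t N) (a' ^ (j + 1)) ⊤ := by
    intro m n hlt he
    obtain ⟨j, rfl⟩ := Nat.exists_eq_add_of_lt hlt
    refine ⟨j, ?_⟩
    have h1 : Ray (sN k t N) (a' ^ (m + j + 1)) (a' ^ m) := by
      have h2 := hf (m + j + 1)
      rw [← he] at h2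
      exact htrans _ _ _ h2 (hsymm _ _ (hf m))
    apply hcan _ _ (a' ^ m) (hpow m).1 (haN m)
    rw [Ideal.top_mul, ← pow_add]
    have h3 : j + 1 + m = m + j + 1 := by ring
    rwa [h3]
  obtain ⟨j, hj⟩ : ∃ j : ℕ, Ray (sN k t N) (a' ^ (j + 1)) ⊤ := by
    rcases lt_or_gt_of_ne hmn with h | h
    · exact key m n h hfmn
    · exact key n m h hfmn.symm
  refine ⟨a' ^ j, (hpow j).1, (hpow j).2.1, (hpow j).2.2, ?_⟩
  have h1 : Ray (sN k t N) (a' * a₁) ⊤ :=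
    htrans _ _ _ (hmul _ _ _ _ (hsymm _ _ haR) (hrefl a₁)) hR
  have ha'N : PrI a' (sN k t N) := by simpa using haN 1
  apply hcan _ _ a' ha0 ha'N
  rw [← pow_succ, mul_comm a₁ a']
  exact htrans _ _ _ h1 (hsymm _ _ hj)

/-- Principal ideals prime to `N` are good. -/
private theorem O8c_good_sp (h6 : S_O6) (h7 : S_O7) (h8a : S_O8a) (h8b : S_O8b) [SqT k t]
    {N M : ℕ} (hN : 0 < N) (hM : 0 < M) {C : Ideal (OO k t) → Prop} (hC1 : C ⊤)
    (hCm : ∀ a b, C a → C b → C (a * b))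
    (hC : ∀ (q : Ideal (OO k t)) (l : ℕ), Deg1 q l → l.Coprime (N * M) → C q)
    {α : OO k t} (h0 : α ≠ 0) (hα : Cop α N) : O8c_Good N M C (sp α) := by
  obtain ⟨β, hβ0, hβα, hβ, hco⟩ := h8a k t N M hN hM α hα
  have hP : PrI (sp β) (sN k t (N * M)) := ((h6 k t).2.2.2.2.2.1 (N * M) β).2 hβ
  refine ⟨sp β, fun h => hβ0 (Ideal.span_singleton_eq_bot.1 h), hP, ?_, ?_⟩
  · apply h8b k t β hβ0 hco C hC1 hCm
    intro q l hq hl
    apply hC q l hq
    have h1 : IsCoprime (l : ℤ) ((N * M : ℕ) : ℤ) := IsCoprime.of_isCoprime_of_dvd_left hβ hl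
    exact Nat.isCoprime_iff_coprime.1 h1
  · apply ((h7 k t _ (O8c_sN_ne hN)).2.2.2.2.2.2.2.1 α β h0 hβ0
      (((h6 k t).2.2.2.2.2.1 N α).2 hα) (O8c_low h6 hP)).2
    left
    rw [Ideal.mem_span_singleton, ← neg_sub, dvd_neg]
    exact hβα

/-- Ideals prime to `N M` are good. -/
private theorem O8c_good_PrI (h2 : S_O2) (h6 : S_O6) (h7 : S_O7) (h8a : S_O8a) (h8b : S_O8b)
    [SqT k t] {N M : ℕ} (hN : 0 < N) (hM : 0 < M) {C : Ideal (OO k t) → Prop} (hC1 : C ⊤)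
    (hCm : ∀ a b, C a → C b → C (a * b))
    (hC : ∀ (q : Ideal (OO k t)) (l : ℕ), Deg1 q l → l.Coprime (N * M) → C q)
    (c : Ideal (OO k t)) : c ≠ ⊥ → PrI c (sN k t (N * M)) → O8c_Good N M C c := by
  induction c using UniqueFactorizationMonoid.induction_on_prime with
  | h₁ => exact fun h => absurd rfl h
  | h₂ x hx =>
    intro _ _
    rw [Ideal.isUnit_iff.1 hx]
    exact ⟨⊤, top_ne_bot, O8c_PrI_top _, hC1, (h7 k t _ (O8c_sN_ne hN)).1 ⊤⟩
  | h₃ a P ha0 hP ih =>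
    intro _ hPrI
    obtain ⟨hP1, ha1⟩ := ((h6 k t).1 P a (sN k t (N * M))).1 hPrI
    refine O8c_good_mul h6 h7 hN hCm ?_ (ih ha0 ha1)
    have hP0 : P ≠ ⊥ := hP.ne_zero
    have hPp : P.IsPrime := Ideal.isPrime_of_prime hP
    obtain ⟨p, hp, hpP, hcase⟩ := O8c_prime_cases h2 P hPp hP0
    rcases hcase with h | h
    · refine ⟨P, hP0, hP1, hC P p ⟨hPp, hP0, hp, h⟩ ?_, (h7 k t _ (O8c_sN_ne hN)).1 P⟩
      rw [← h]
      exact ((h6 k t).2.2.2.2.1 (N * M) P).1 hP1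
    · rw [h] at hP1 hP0 ⊢
      have h1 : Cop (p : OO k t) (N * M) := ((h6 k t).2.2.2.2.2.1 (N * M) _).1 hP1
      exact O8c_good_sp h6 h7 h8a h8b hN hM hC1 hCm hC
        (fun h3 => hP0 (by rw [h3]; exact Ideal.span_singleton_eq_bot.2 rfl))
        (cop_dvd h1 (Dvd.intro _ rfl))

/-- A generator of `a` modulo `a * sN n`, not zero. -/
private theorem O8c_gen [SqT k t] {n : ℕ} (hn : 0 < n) {a : Ideal (OO k t)} (ha : a ≠ ⊥) :
    ∃ α : OO k t, α ≠ 0 ∧ ∃ c : Ideal (OO k t), c ≠ ⊥ ∧ sp α = a * c ∧ PrI c (sN k t n) := by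
  have hn0 : sN k t n ≠ ⊥ := O8c_sN_ne hn
  have hle : a * sN k t n ≤ a := Ideal.mul_le_left
  obtain ⟨α₀, hα₀⟩ := IsDedekindDomain.exists_sup_span_eq hle (O8c_mul_ne_bot ha hn0)
  obtain ⟨α, hα0, hα⟩ : ∃ α : OO k t, α ≠ 0 ∧ a * sN k t n ⊔ sp α = a := by
    by_cases h : α₀ = 0
    · obtain ⟨v, hv, hv0⟩ := Submodule.exists_mem_ne_zero_of_ne_bot ha
      refine ⟨v, hv0, ?_⟩
      have h1 : a * sN k t n = a := by
        rw [h, Ideal.span_singleton_eq_bot.2 rfl, sup_bot_eq] at hα₀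
        exact hα₀
      rw [h1]
      exact sup_eq_left.2 ((Ideal.span_singleton_le_iff_mem a).2 hv)
    · exact ⟨α₀, h, hα₀⟩
  have h1 : sp α ≤ a := by
    rw [← hα]
    exact le_sup_right
  obtain ⟨c, hc⟩ := Ideal.dvd_iff_le.2 h1
  refine ⟨α, hα0, c, ?_, hc, ?_⟩
  · rintro rfl
    rw [Ideal.mul_bot] at hc
    exact hα0 (Ideal.span_singleton_eq_bot.1 hc)
  · have h2 : a * (c ⊔ sN k t n) = a * ⊤ := by
      rw [Ideal.mul_sup, ← hc, Ideal.mul_top, sup_comm]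
      exact hα
    exact mul_left_cancel₀ (a := a) ha h2

/-- Integer moduli: every ray class contains a product of primes of degree one. -/
theorem sO8c (h2 : S_O2) (h6 : S_O6) (h7 : S_O7) (h8a : S_O8a) (h8b : S_O8b) : S_O8c := by
  intro k t _ N M hN hM C hC1 hCm hC a ha haN
  have hNM : 0 < N * M := Nat.mul_pos hN hM
  obtain ⟨hrefl, hsymm, htrans, hmul, hcan, hcls, -, -, hinv, -⟩ := h7 k t _ (O8c_sN_ne hN)
  obtain ⟨α, hα0, c, hc0, hαc, hcP⟩ := O8c_gen hNM ha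
  have hcN : PrI c (sN k t N) := O8c_low h6 hcP
  have hαN : Cop α N := by
    apply ((h6 k t).2.2.2.2.2.1 N α).1
    rw [hαc]
    exact ((h6 k t).1 a c _).2 ⟨haN, hcN⟩
  obtain ⟨c₁, hc₁0, hc₁P, hc₁R⟩ := hinv c hc0 hcN
  have hc₁ : O8c_Good N M C c₁ :=
    O8c_good_inv h6 h7 hN hC1 hCm (O8c_good_PrI h2 h6 h7 h8a h8b hN hM hC1 hCm hC c hc0 hcP) hc₁R
  have hαg : O8c_Good N M C (sp α) := O8c_good_sp h6 h7 h8a h8b hN hM hC1 hCm hC hα0 hαN
  have hgood : O8c_Good N M C (sp α * c₁) := O8c_good_mul h6 h7 hN hCm hαg hc₁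
  refine O8c_good_ray h7 hN hgood ?_
  rw [hαc, mul_assoc]
  have h1 := hmul a a (c * c₁) ⊤ (hrefl a) hc₁R
  rw [Ideal.mul_top] at h1
  exact hsymm _ _ h1

end Pool.Agent.DT
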