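import Pool.Agent.Lib.DT.O.Spec

/-!
# Theorem DT, module O8m: every class modulo `n` contains an ideal prime to `M`
-/

set_option autoImplicit false

open scoped Pointwise nonZeroDivisors

noncomputable section

namespace Pool.Agent.DT

open Pool.Agent.MuZ Pool.Agent.FW NumberField IsDedekindDomain
open Pool.Agent.DI (io ofC io_inj exists_io io_ofC ofC_io VP MP UP TP ex)

variable {k t : ℕ}

private theorem O8m_mul_ne_bot [SqT k t] {a b : Ideal (OO k t)} (ha : a ≠ ⊥) (hb : b ≠ ⊥) :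
    a * b ≠ ⊥ :=
  mul_ne_zero (a := a) (b := b) ha hb

/-- A generator of `a` modulo `a * m`, not zero. -/
private theorem O8m_gen [SqT k t] {m : Ideal (OO k t)} (hm : m ≠ ⊥) {a : Ideal (OO k t)} (ha : a ≠ ⊥) :
    ∃ α : OO k t, α ≠ 0 ∧ ∃ c : Ideal (OO k t), c ≠ ⊥ ∧ sp α = a * c ∧ PrI c m := by
  have hle : a * m ≤ a := Ideal.mul_le_left
  obtain ⟨α₀, hα₀⟩ := IsDedekindDomain.exists_sup_span_eq hle (O8m_mul_ne_bot ha hm)
  obtain ⟨α, hα0, hα⟩ : ∃ α : OO k t, α ≠ 0 ∧ a * m ⊔ sp α = a := by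
    by_cases h : α₀ = 0
    · obtain ⟨v, hv, hv0⟩ := Submodule.exists_mem_ne_zero_of_ne_bot ha
      refine ⟨v, hv0, ?_⟩
      have h1 : a * m = a := by
        rw [h, Ideal.span_singleton_eq_bot.2 rfl, sup_bot_eq] at hα₀
        exact hα₀
      rw [h1]
      exact sup_eq_left.2 ((Ideal.span_singleton_le_iff_mem a).2 hv)
    · exact ⟨α₀, h, hα₀⟩
  have h1 : sp α ≤ a := by
    rw [← hα]
    exact le_sup_right
  obtain ⟨c, hc⟩ := Ideal.dvd_iff_le.2 h1
  refine ⟨α, hα0, c, ?_, hc, ?_⟩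
  · rintro rfl
    rw [Ideal.mul_bot] at hc
    exact hα0 (Ideal.span_singleton_eq_bot.1 hc)
  · have h2 : a * (c ⊔ m) = a * ⊤ := by
      rw [Ideal.mul_sup, ← hc, Ideal.mul_top, sup_comm]
      exact hα
    exact mul_left_cancel₀ (a := a) ha h2

private theorem O8m_one [SqT k t] (γ : OO k t) (P : Ideal (OO k t)) (h : 1 - γ ∈ P) : PrI (sp γ) P := by
  have hm : γ ∈ sp γ := Ideal.mem_span_singleton_self γ
  have h1 : (1 : OO k t) ∈ sp γ ⊔ P := by
    have h2 : γ + (1 - γ) ∈ sp γ ⊔ P := Submodule.add_mem_sup hm h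
    rwa [add_sub_cancel] at h2
  exact (Ideal.eq_top_iff_one _).2 h1

/-- An element prime to `n` is congruent modulo `n` to an element prime to `m`. -/
private theorem O8m_move (h6 : S_O6) [SqT k t] (n m : Ideal (OO k t)) : m ≠ ⊥ → ∀ α : OO k t,
    PrI (sp α) n → ∃ β : OO k t, β - α ∈ n ∧ PrI (sp β) m := by
  induction m using UniqueFactorizationMonoid.induction_on_prime with
  | h₁ => exact fun h => absurd rfl h
  | h₂ x hx =>
    intro _ α _
    rw [Ideal.isUnit_iff.1 hx]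
    exact ⟨α, by rw [sub_self]; exact n.zero_mem, sup_top_eq _⟩
  | h₃ m P hm0 hP ih =>
    intro _ α hα
    obtain ⟨β, hβα, hβ⟩ := ih hm0 α hα
    have hP0 : P ≠ ⊥ := hP.ne_zero
    have hPp : P.IsPrime := Ideal.isPrime_of_prime hP
    have hPm : P.IsMaximal := hPp.isMaximal hP0
    obtain ⟨-, h2, h3, h4, -, -, h7, -⟩ := h6 k t
    have hnm : n * m ≤ n := Ideal.mul_le_left
    have hβn : PrI (sp β) n := by
      apply h7 n α β _ hα
      rw [← neg_sub]
      exact n.neg_mem hβα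
    have hβnm : PrI (sp β) (n * m) := (h2 _ _ _).2 ⟨hβn, hβ⟩
    by_cases hle : n * m ≤ P
    · exact ⟨β, hβα, (h2 _ _ _).2 ⟨h4 _ _ _ hle hβnm, hβ⟩⟩
    · have hsup : P ⊔ n * m = ⊤ := by
        apply hPm.1.2
        refine lt_of_le_of_ne le_sup_left fun h => hle ?_
        rw [h]
        exact le_sup_right
      obtain ⟨x, hx, y, hy, hxy⟩ := Submodule.mem_sup.1 ((Ideal.eq_top_iff_one _).1 hsup)
      have e1 : β * x + y - β = (1 - β) * y := by
        linear_combination β * hxy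
      have e2 : 1 - (β * x + y) = (1 - β) * x := by
        linear_combination -hxy
      have hm1 : β * x + y - β ∈ n * m := by
        rw [e1]
        exact Ideal.mul_mem_left _ _ hy
      refine ⟨β * x + y, ?_, (h2 _ _ _).2 ⟨?_, ?_⟩⟩
      · have h5 : β * x + y - α = (β * x + y - β) + (β - α) := by ring
        rw [h5]
        exact n.add_mem (hnm hm1) hβα
      · apply O8m_one
        rw [e2]
        exact P.mul_mem_left (1 - β) hx
      · have h5 : PrI (sp (β * x + y)) (n * m) := by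
          apply h7 _ β _ _ hβnm
          rw [← neg_sub]
          exact (n * m).neg_mem hm1
        exact ((h2 _ _ _).1 h5).2

/-- Powers of an ideal prime to `m`. -/
private theorem O8m_pow (h6 : S_O6) [SqT k t] {m c : Ideal (OO k t)} (h0 : c ≠ ⊥) (hP : PrI c m)
    (j : ℕ) : c ^ j ≠ ⊥ ∧ PrI (c ^ j) m := by
  induction j with
  | zero =>
    rw [pow_zero, Ideal.one_eq_top]
    exact ⟨top_ne_bot, top_sup_eq _⟩
  | succ j ih =>
    rw [pow_succ]
    exact ⟨O8m_mul_ne_bot ih.1 h0, ((h6 k t).1 _ _ m).2 ⟨ih.2, hP⟩⟩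

/-- A power of every ideal prime to `n` has the trivial class. -/
private theorem O8m_fin (h6 : S_O6) (h7 : S_O7) [SqT k t] {n c : Ideal (OO k t)} (hn : n ≠ ⊥)
    (h0 : c ≠ ⊥) (hP : PrI c n) : ∃ j : ℕ, Ray n (c ^ (j + 1)) ⊤ := by
  obtain ⟨hrefl, hsymm, htrans, hmul, hcan, -, -, -, -, R, hRC⟩ := h7 k t n hn
  have hpow := O8m_pow h6 h0 hP
  have hex : ∀ i : ℕ, ∃ b ∈ R, Ray n (c ^ i) b := fun i => hRC.ex _ (hpow i).1 (hpow i).2
  choose f hfR hf using hex
  obtain ⟨i, -, j, -, hij, hfij⟩ := Set.infinite_univ.exists_ne_map_eq_of_mapsTo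
    (f := f) (t := (R : Set (Ideal (OO k t)))) (fun i _ => hfR i) R.finite_toSet
  have key : ∀ i j : ℕ, i < j → f i = f j → ∃ l : ℕ, Ray n (c ^ (l + 1)) ⊤ := by
    intro i j hlt he
    obtain ⟨l, rfl⟩ := Nat.exists_eq_add_of_lt hlt
    refine ⟨l, ?_⟩
    have h1 : Ray n (c ^ (i + l + 1)) (c ^ i) := by
      have h2 := hf (i + l + 1)
      rw [← he] at h2
      exact htrans _ _ _ h2 (hsymm _ _ (hf i))
    apply hcan _ _ (c ^ i) (hpow i).1 (hpow i).2
    rw [Ideal.top_mul, ← pow_add]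
    have h3 : l + 1 + i = i + l + 1 := by ring
    rwa [h3]
  rcases lt_or_gt_of_ne hij with h | h
  · exact key i j h hfij
  · exact key j i h hfij.symm

theorem sO8m (h2 : S_O2) (h6 : S_O6) (h7 : S_O7) : S_O8m := by
  intro k t _ n M hn hM a ha haP
  have _ := h2
  by_cases htop : sN k t M = ⊤
  · exact ⟨a, ha, by rw [htop]; exact sup_top_eq _, (h7 k t n hn).1 a⟩
  have hM0 : sN k t M ≠ ⊥ := by
    intro h
    have h1 : ((M : ℕ) : OO k t) = 0 := Ideal.span_singleton_eq_bot.1 h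
    have h3 := congrArg Nm h1
    rw [Nm_nat, Nm_zero] at h3
    have h4 : (M : ℤ) = 0 := by simpa using h3
    omega
  obtain ⟨α, hα0, c, hc0, hαc, hcP⟩ := O8m_gen (O8m_mul_ne_bot hn hM0) ha
  obtain ⟨g1, g2, -, -, -, -, g7, -⟩ := h6 k t
  obtain ⟨hcn, hcM⟩ := (g2 _ _ _).1 hcP
  have hαn : PrI (sp α) n := by
    rw [hαc]
    exact (g1 _ _ _).2 ⟨haP, hcn⟩
  obtain ⟨β, hβα, hβM⟩ := O8m_move h6 n (sN k t M) hM0 α hαn
  have hβ0 : β ≠ 0 := by
    rintro rfl
    apply htop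
    have h1 : sp (0 : OO k t) = ⊥ := Ideal.span_singleton_eq_bot.2 rfl
    unfold PrI at hβM
    rw [h1, bot_sup_eq] at hβM
    exact hβM
  have hβn : PrI (sp β) n := by
    apply g7 n α β _ hαn
    rw [← neg_sub]
    exact n.neg_mem hβα
  obtain ⟨hrefl, hsymm, htrans, hmul, hcan, -, -, hel, -, -⟩ := h7 k t n hn
  obtain ⟨j, hj⟩ := O8m_fin h6 h7 hn hc0 hcn
  have hpow := O8m_pow h6 hc0 hcM j
  have hβb : sp β ≠ ⊥ := fun h => hβ0 (Ideal.span_singleton_eq_bot.1 h)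
  refine ⟨sp β * c ^ j, O8m_mul_ne_bot hβb hpow.1, (g1 _ _ _).2 ⟨hβM, hpow.2⟩, ?_⟩
  apply hcan _ _ c hc0 hcn
  have r1 : Ray n (a * c) (sp β) := by
    rw [← hαc]
    apply (hel α β hα0 hβ0 hαn hβn).2
    left
    rw [← neg_sub]
    exact n.neg_mem hβα
  have r2 : Ray n (sp β * c ^ (j + 1)) (sp β) := by
    have h := hmul (sp β) (sp β) _ _ (hrefl (sp β)) hj
    rwa [Ideal.mul_top] at h
  have e : sp β * c ^ j * c = sp β * c ^ (j + 1) := by
    rw [pow_succ, mul_assoc]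
  rw [e]
  exact htrans _ _ _ r1 (hsymm _ _ r2)

end Pool.Agent.DT
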