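import Pool.Agent.Lib.DT.O.AllA
import Pool.Agent.Lib.DT.O.O8
import Pool.Agent.Lib.DT.O.O8a
import Pool.Agent.Lib.DT.O.O8b
import Pool.Agent.Lib.DT.O.O8c
import Pool.Agent.Lib.DT.O.O8m

/-!
# Theorem DT, parts 0 and L: assembly (complete)

`aO2 : S_O2`, ..., `aO9`, `aL1`, ..., `aL6`: all without hypotheses (see `DT/O/AllA.lean`), and here `aO8 : S_O8`.
-/

set_option autoImplicit false

noncomputable section

namespace Pool.Agent.DT

theorem aO8a : S_O8a := sO8a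
theorem aO8b : S_O8b := sO8b aO2
theorem aO8c : S_O8c := sO8c aO2 aO6 aO7 aO8a aO8b
theorem aO8m : S_O8m := sO8m aO2 aO6 aO7
theorem aO8 : S_O8 := sO8 aO2 aO6 aO7 aO8c aO8m

end Pool.Agent.DT
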