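import Pool.Agent.Lib.DT.O.Spec

/-!
# Theorem DT, module L0
-/

set_option autoImplicit false

open scoped Pointwise nonZeroDivisors

noncomputable section

namespace Pool.Agent.DT

open Pool.Agent.MuZ Pool.Agent.FW NumberField IsDedekindDomain
open Pool.Agent.DI (io ofC io_inj exists_io io_ofC ofC_io VP MP UP TP ex)


private theorem L0_mem {R : Type} [CommRing R] {I c : Ideal R} {x : R} (h : I * c = Ideal.span {x}) :
    x ∈ I := by
  have h1 : x ∈ I * c := by
    rw [h]
    exact Ideal.mem_span_singleton_self _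
  have h2 : I * c ≤ I := fun y hy => (Ideal.mul_le_inf hy).1
  exact h2 h1

private theorem L0_ex {R : Type} [CommRing R] [IsDedekindDomain R] {I : Ideal R} {x : R} (hx : x ≠ 0)
    (h : x ∈ I) : ∃ c : Ideal R, c ≠ ⊥ ∧ I * c = Ideal.span {x} := by
  have hle : Ideal.span {x} ≤ I := (Ideal.span_singleton_le_iff_mem I).2 h
  obtain ⟨c, hc⟩ := Ideal.dvd_iff_le.2 hle
  refine ⟨c, ?_, hc.symm⟩
  rintro rfl
  rw [Ideal.mul_bot, Ideal.span_singleton_eq_bot] at hc
  exact hx hc

private theorem L0_can {R : Type} [CommRing R] [IsDedekindDomain R] {I c : Ideal R} {x v : R}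
    (hI : I ≠ ⊥) (h : I * c = Ideal.span {x}) (hv : ∀ u ∈ I, ∃ u', u * v = x * u') : v ∈ c := by
  have h2 : I * Ideal.span {v} ≤ I * c := by
    rw [h, Ideal.mul_le]
    intro u hu w hw
    obtain ⟨a, rfl⟩ := Ideal.mem_span_singleton'.1 hw
    obtain ⟨u', hu'⟩ := hv u hu
    rw [show u * (a * v) = (a * u') * x by linear_combination a * hu']
    exact Ideal.mul_mem_left _ _ (Ideal.mem_span_singleton_self _)
  have h4 : I * c ∣ I * Ideal.span {v} := Ideal.dvd_iff_le.2 h2
  have h5 : c ∣ Ideal.span {v} := (mul_dvd_mul_iff_left hI).1 h4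
  exact Ideal.dvd_iff_le.1 h5 (Ideal.mem_span_singleton_self v)

private theorem L0_mul {R : Type} [CommRing R] {I c : Ideal R} {x u v : R} (h : I * c = Ideal.span {x})
    (hu : u ∈ I) (hv : v ∈ c) : ∃ a, a * x = u * v := by
  have h1 : u * v ∈ Ideal.span {x} := by
    rw [← h]
    exact Ideal.mul_mem_mul hu hv
  exact Ideal.mem_span_singleton'.1 h1

theorem sL0 (_h2 : S_O2) : S_L0 := by
  intro k t _ I hI
  refine ⟨exists_nat hI, ?_, ?_⟩
  · intro n hn hnI
    have h0 : (n : OO k t) ≠ 0 := by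
      intro h1
      have h2 := toC_nat (k := k) (t := t) n
      rw [h1, toC_zero] at h2
      exact hn.ne' (by exact_mod_cast h2.symm)
    exact L0_ex h0 hnI
  · intro n c hn hc z
    have hn' : (n : ℂ) ≠ 0 := by exact_mod_cast hn.ne'
    constructor
    · intro hz
      have h1 : (n : OO k t) ∈ I := L0_mem hc
      obtain ⟨v, hv⟩ := hz _ h1
      rw [toC_nat] at hv
      have h3 : ∀ u ∈ I, ∃ u' : OO k t, u * v = (n : OO k t) * u' := by
        intro u hu
        obtain ⟨u', hu'⟩ := hz u hu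
        refine ⟨u', ?_⟩
        apply toC_inj
        rw [toC_mul, toC_mul, toC_nat, ← hu', ← hv]
        ring
      have h2 : v ∈ c := L0_can hI hc h3
      refine ⟨v, h2, ?_⟩
      rw [← hv]
      field_simp
    · rintro ⟨v, hv, rfl⟩ u hu
      obtain ⟨a, ha⟩ := L0_mul hc hu hv
      refine ⟨a, ?_⟩
      have h2 : toC u * toC v = toC a * n := by rw [← toC_mul, ← ha, toC_mul, toC_nat]
      rw [← mul_div_assoc, h2, mul_div_cancel_right₀ _ hn']

end Pool.Agent.DT
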