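import Pool.Agent.Lib.DT.O.Spec

/-!
# Theorem DT, module O7b: the ray class group is finite
-/

set_option autoImplicit false

open scoped Pointwise nonZeroDivisors

noncomputable section

namespace Pool.Agent.DT

open Pool.Agent.MuZ Pool.Agent.FW NumberField IsDedekindDomain
open Pool.Agent.DI (io ofC io_inj exists_io io_ofC ofC_io VP MP UP TP ex)

variable {k t : ℕ}

/-- The class group of `O` is finite. -/
private theorem O7b_finite (k t : ℕ) [SqT k t] : Finite (ClassGroup (OO k t)) := by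
  classical
  have hi : Algebra.IsAlgebraic ℤ (OO k t) := by
    have : Algebra.IsIntegral ℤ (OO k t) := inferInstance
    infer_instance
  exact @Finite.of_fintype _ (ClassGroup.fintypeOfAdmissibleOfAlgebraic
    (QuadraticAlgebra.basis (-(3 * (k : ℤ))) (t : ℤ)) AbsoluteValue.absIsAdmissible)

open Classical in
/-- The ideal class of `a` (`1` for the zero ideal). -/
private def O7b_cl [SqT k t] (a : Ideal (OO k t)) : ClassGroup (OO k t) :=
  if h : a ≠ ⊥ then ClassGroup.mk0 ⟨a, mem_nonZeroDivisors_of_ne_zero h⟩ else 1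

private theorem O7b_cl_of [SqT k t] {a : Ideal (OO k t)} (h : a ≠ ⊥) :
    O7b_cl a = ClassGroup.mk0 ⟨a, mem_nonZeroDivisors_of_ne_zero h⟩ := dif_pos h

private theorem O7b_mul_ne [SqT k t] {a b : Ideal (OO k t)} (ha : a ≠ ⊥) (hb : b ≠ ⊥) :
    a * b ≠ ⊥ := mul_ne_zero ha hb

private theorem O7b_cl_mul [SqT k t] {a b : Ideal (OO k t)} (ha : a ≠ ⊥) (hb : b ≠ ⊥) :
    O7b_cl (a * b) = O7b_cl a * O7b_cl b := by
  rw [O7b_cl_of ha, O7b_cl_of hb, O7b_cl_of (O7b_mul_ne ha hb), ← map_mul]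
  rfl

private theorem O7b_sp_ne [SqT k t] {v : OO k t} (h : v ≠ 0) : sp v ≠ ⊥ := fun h' =>
  h (Ideal.span_singleton_eq_bot.1 h')

private theorem O7b_cl_sp [SqT k t] {v : OO k t} (h : v ≠ 0) : O7b_cl (sp v) = 1 := by
  rw [O7b_cl_of (O7b_sp_ne h), ClassGroup.mk0_eq_one_iff]
  exact ⟨⟨v, rfl⟩⟩

private theorem O7b_prin [SqT k t] {a : Ideal (OO k t)} (ha : a ≠ ⊥) (h : O7b_cl a = 1) :
    ∃ v : OO k t, v ≠ 0 ∧ a = sp v := by
  rw [O7b_cl_of ha, ClassGroup.mk0_eq_one_iff] at h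
  obtain ⟨v, hv⟩ := h.principal
  have h2 : a = sp v := hv
  refine ⟨v, ?_, h2⟩
  rintro rfl
  exact ha (h2.trans (Ideal.span_singleton_eq_bot.2 rfl))

private theorem O7b_ray [SqT k t] {n a : Ideal (OO k t)} (ha : a ≠ ⊥) (h : Ray n a ⊤) :
    O7b_cl a = 1 := by
  obtain ⟨α, α', h1, h2, -, -, -, h3⟩ := h
  have h4 : sp α' * (⊤ : Ideal (OO k t)) = sp α' := Ideal.mul_top _
  have h5 : sp α * a = sp α' := h3.trans h4
  have h6 := congrArg O7b_cl h5
  rwa [O7b_cl_mul (O7b_sp_ne h1) ha, O7b_cl_sp h1, O7b_cl_sp h2, one_mul] at h6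

/-- A chosen ideal prime to `n` in the class inverse to `C`. -/
private theorem O7b_key [SqT k t] (h6 : S_O6) (h7a : S_O7a) (n : Ideal (OO k t)) (hn : n ≠ ⊥) :
    ∃ A : ClassGroup (OO k t) → Ideal (OO k t), ∀ b : Ideal (OO k t), b ≠ ⊥ → PrI b n →
      A (O7b_cl b) ≠ ⊥ ∧ PrI (A (O7b_cl b)) n ∧
        ∃ β : OO k t, β ≠ 0 ∧ PrI (sp β) n ∧ b * A (O7b_cl b) = sp β := by
  classical
  obtain ⟨-, -, -, -, -, -, -, -, h9⟩ := h7a k t n hn
  obtain ⟨q1, -⟩ := h6 k t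
  let A : ClassGroup (OO k t) → Ideal (OO k t) := fun C =>
    if h : ∃ a : Ideal (OO k t), a ≠ ⊥ ∧ PrI a n ∧ C * O7b_cl a = 1 then h.choose else ⊤
  refine ⟨A, fun b hb hbN => ?_⟩
  have hex : ∃ a : Ideal (OO k t), a ≠ ⊥ ∧ PrI a n ∧ O7b_cl b * O7b_cl a = 1 := by
    obtain ⟨a, ha, haN, har⟩ := h9 b hb hbN
    exact ⟨a, ha, haN, by rw [← O7b_cl_mul hb ha]; exact O7b_ray (O7b_mul_ne hb ha) har⟩
  have hA : A (O7b_cl b) = hex.choose := dif_pos hex
  obtain ⟨h1, h2, h3⟩ := hex.choose_spec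
  rw [← hA] at h1 h2 h3
  refine ⟨h1, h2, ?_⟩
  rw [← O7b_cl_mul hb h1] at h3
  obtain ⟨β, hβ, hβ'⟩ := O7b_prin (O7b_mul_ne hb h1) h3
  refine ⟨β, hβ, ?_, hβ'⟩
  rw [← hβ', q1]
  exact ⟨hbN, h2⟩

/-- Module O7b: the ray class group is finite. -/
theorem sO7b (h5 : S_O5) (h6 : S_O6) (h7a : S_O7a) : S_O7b := by
  classical
  have _ := h5
  intro k t _ n hn
  obtain ⟨A, hA⟩ := O7b_key (k := k) (t := t) h6 h7a n hn
  obtain ⟨p1, p2, p3, -, p5, -, -, p8, -⟩ := h7a k t n hn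
  have hfin := O7b_finite k t
  have hquo : Finite (OO k t ⧸ n) := Ideal.finiteQuotientOfFreeOfNeBot _ hn
  let G : Type := {b : Ideal (OO k t) // b ≠ ⊥ ∧ PrI b n}
  have hβ : ∀ b : G, ∃ β : OO k t, β ≠ 0 ∧ PrI (sp β) n ∧ b.1 * A (O7b_cl b.1) = sp β := fun b =>
    (hA b.1 b.2.1 b.2.2).2.2
  choose β hβ0 hβc hβe using hβ
  let F : G → ClassGroup (OO k t) × (OO k t ⧸ n) := fun b =>
    (O7b_cl b.1, Ideal.Quotient.mk _ (β b))
  have hF : ∀ b b' : G, F b = F b' → Ray n b.1 b'.1 := by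
    intro b b' h
    have e1 : O7b_cl b.1 = O7b_cl b'.1 := congrArg Prod.fst h
    have e2 : Ideal.Quotient.mk n (β b) = Ideal.Quotient.mk n (β b') := congrArg Prod.snd h
    have e3 : β b - β b' ∈ n := by
      rwa [Ideal.Quotient.eq] at e2
    obtain ⟨a1, a2, -⟩ := hA b.1 b.2.1 b.2.2
    refine p5 b.1 b'.1 (A (O7b_cl b.1)) a1 a2 ?_
    have e4 : b'.1 * A (O7b_cl b.1) = sp (β b') := by
      rw [e1]
      exact hβe b'
    rw [hβe b, e4]
    exact (p8 _ _ (hβ0 b) (hβ0 b') (hβc b) (hβc b')).2 (Or.inl e3)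
  let s : Setoid G := ⟨fun b b' => Ray n b.1 b'.1, fun b => p1 b.1, fun {b b'} h => p2 b.1 b'.1 h,
    fun {b b' b''} h h' => p3 b.1 b'.1 b''.1 h h'⟩
  have hQ : Finite (Quotient s) := by
    have hr : Finite (Set.range F) := inferInstance
    refine Finite.of_surjective (fun y : Set.range F => (Quotient.mk s y.2.choose)) ?_
    intro q
    obtain ⟨b, rfl⟩ := Quotient.exists_rep q
    refine ⟨⟨F b, b, rfl⟩, Quotient.sound ?_⟩
    exact hF _ _ (⟨b, rfl⟩ : F b ∈ Set.range F).choose_spec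
  refine ⟨(Set.finite_range (fun q : Quotient s => (q.out).1)).toFinset, ?_, ?_, ?_⟩
  · intro b hb
    rw [Set.Finite.mem_toFinset] at hb
    obtain ⟨q, rfl⟩ := hb
    exact (q.out).2
  · intro b hb hbN
    refine ⟨((Quotient.mk s ⟨b, hb, hbN⟩).out).1, ?_, ?_⟩
    · rw [Set.Finite.mem_toFinset]
      exact ⟨_, rfl⟩
    · exact p2 _ _ (Quotient.mk_out (s := s) (⟨b, hb, hbN⟩ : G))
  · intro b hb b' hb' hr
    rw [Set.Finite.mem_toFinset] at hb hb'
    obtain ⟨q, rfl⟩ := hb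
    obtain ⟨q', rfl⟩ := hb'
    have h1 : Quotient.mk s q.out = Quotient.mk s q'.out := Quotient.sound hr
    rw [Quotient.out_eq, Quotient.out_eq] at h1
    rw [h1]

end Pool.Agent.DT
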